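import Mathlib
import Pool.Agent.H957R3.CM

/-!
# Induction of algebras for groups of matrices: the definitions

`Γ` is a group of matrices: a group with a homomorphism `ι` to the matrices of size `N` over the
field `k` (for example `SL_N(k)` and its subgroups). `B` is a subgroup of `Γ`.
-/

set_option autoImplicit false

namespace Pool.Agent.Y85.NSI

universe u v

open Polynomial

section general

variable {k : Type u} [Field k] {N : ℕ}

/-- A map from a set `S` of matrices (via `ι`) to a commutative `k`-algebra `R` is a morphism if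
it is given by a polynomial in the matrix entries with coefficients in `R`. -/
def IsMorphism {R : Type u} [CommRing R] [Algebra k R] {S : Type v}
    (ι : S → Matrix (Fin N) (Fin N) k) (f : S → R) : Prop :=
  ∃ Φ : MvPolynomial (Fin N × Fin N) R,
    ∀ s, f s = MvPolynomial.eval (fun ij => algebraMap k R (ι s ij.1 ij.2)) Φ

variable {Γ : Type u} [Group Γ]

/-- A `B`-algebra: a commutative `k`-algebra `R` with a rational action of `B` by `k`-algebra
automorphisms. Rational means that `b ↦ b · r` is a morphism for every `r`. -/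
structure BAlgebra (ι : Γ →* Matrix (Fin N) (Fin N) k) (B : Subgroup Γ)
    (R : Type u) [CommRing R] [Algebra k R] where
  /-- the action -/
  act : B →* (R →ₐ[k] R)
  rational : ∀ r : R, IsMorphism (fun b : B => ι b) (fun b => act b r)

/-- The induced algebra `ind_B^Γ R`: all morphisms `f : Γ → R` with `f (g b) = b⁻¹ f(g)`, with
pointwise operations. -/
def ind {ι : Γ →* Matrix (Fin N) (Fin N) k} {B : Subgroup Γ} {R : Type u} [CommRing R]
    [Algebra k R] (A : BAlgebra ι B R) : Subalgebra k (Γ → R) where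
  carrier := {f | IsMorphism (fun g : Γ => ι g) f ∧
    ∀ (g : Γ) (b : B), f (g * (b : Γ)) = A.act b⁻¹ (f g)}
  mul_mem' := by
    rintro f g ⟨⟨Φ, hΦ⟩, hf⟩ ⟨⟨Ψ, hΨ⟩, hg⟩
    refine ⟨⟨Φ * Ψ, fun s => ?_⟩, fun x b => ?_⟩
    · rw [map_mul, Pi.mul_apply, hΦ, hΨ]
    · rw [Pi.mul_apply, Pi.mul_apply, map_mul, hf, hg]
  add_mem' := by
    rintro f g ⟨⟨Φ, hΦ⟩, hf⟩ ⟨⟨Ψ, hΨ⟩, hg⟩
    refine ⟨⟨Φ + Ψ, fun s => ?_⟩, fun x b => ?_⟩
    · rw [map_add, Pi.add_apply, hΦ, hΨ]
    · rw [Pi.add_apply, Pi.add_apply, map_add, hf, hg]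
  algebraMap_mem' := by
    intro c
    refine ⟨⟨MvPolynomial.C (algebraMap k R c), fun s => ?_⟩, fun x b => ?_⟩
    · simp [Pi.algebraMap_apply]
    · simp [Pi.algebraMap_apply]

/-- The semigroup ring `k[S]` of a semigroup `S` of natural numbers (with zero): the polynomials
whose exponents lie in `S`. -/
def nsr (k : Type u) [Field k] (S : AddSubmonoid ℕ) : Subalgebra k k[X] where
  carrier := {f | ∀ n, n ∉ S → f.coeff n = 0}
  mul_mem' := by
    intro f g hf hg n hn
    have hf' : ∀ n, n ∉ S → f.coeff n = 0 := hf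
    have hg' : ∀ n, n ∉ S → g.coeff n = 0 := hg
    change (f * g).coeff n = 0
    rw [coeff_mul]
    refine Finset.sum_eq_zero fun x hx => ?_
    have hx' : x.1 + x.2 = n := Finset.HasAntidiagonal.mem_antidiagonal.1 hx
    by_cases h1 : x.1 ∈ S
    · by_cases h2 : x.2 ∈ S
      · exact absurd (hx' ▸ S.add_mem h1 h2) hn
      · rw [hg' _ h2, mul_zero]
    · rw [hf' _ h1, zero_mul]
  add_mem' := by
    intro f g hf hg n hn
    have hf' : ∀ n, n ∉ S → f.coeff n = 0 := hf
    have hg' : ∀ n, n ∉ S → g.coeff n = 0 := hg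
    change (f + g).coeff n = 0
    rw [coeff_add, hf' n hn, hg' n hn, add_zero]
  algebraMap_mem' := by
    intro c n hn
    change (C c).coeff n = 0
    rw [coeff_C, if_neg]
    rintro rfl
    exact hn S.zero_mem

/-- The hypotheses on the group `Γ`, its subgroup `B` and the character `χ`: the algebra of the
regular functions on `Γ` is a domain, the `B`-invariant regular functions on `Γ` are constant, `χ`
is regular, and there are two linearly independent regular functions `f` on `Γ` with
`f (g b) = χ(b)⁻¹ f(g)`. -/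
structure Hyp (ι : Γ →* Matrix (Fin N) (Fin N) k) (B : Subgroup Γ) (χ : B →* k) : Prop where
  irr : ∀ f h : Γ → k, IsMorphism (fun g : Γ => ι g) f → IsMorphism (fun g : Γ => ι g) h →
    (∀ g, f g * h g = 0) → (∀ g, f g = 0) ∨ ∀ g, h g = 0
  const : ∀ f : Γ → k, IsMorphism (fun g : Γ => ι g) f → (∀ (g : Γ) (b : B), f (g * b) = f g) →
    ∀ g, f g = f 1
  reg : IsMorphism (fun b : B => ι b) (fun b => χ b)
  two : ∃ f h : Γ → k, IsMorphism (fun g : Γ => ι g) f ∧ IsMorphism (fun g : Γ => ι g) h ∧
    (∀ (g : Γ) (b : B), f (g * b) = χ b⁻¹ * f g) ∧ (∀ (g : Γ) (b : B), h (g * b) = χ b⁻¹ * h g) ∧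
    LinearIndependent k ![f, h]

end general

section special_linear

variable (n : ℕ) (k : Type u) [Field k]

/-- The group `SL_n(k)`. -/
abbrev SL : Type u := Matrix.SpecialLinearGroup (Fin n) k

/-- the inclusion of `SL_n(k)` in the matrices -/
def inc : SL n k →* Matrix (Fin n) (Fin n) k where
  toFun g := g.1
  map_one' := rfl
  map_mul' _ _ := rfl

/-- The Borel subgroup of the upper triangular matrices in `SL_n(k)`. -/
def borel : Subgroup (SL n k) where
  carrier := {g | ∀ i j : Fin n, j < i → g.1 i j = 0}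
  mul_mem' := by
    intro a b ha hb
    have ha' : a.1.BlockTriangular id := fun i j h => ha i j h
    have hb' : b.1.BlockTriangular id := fun i j h => hb i j h
    exact fun i j h => (ha'.mul hb') h
  one_mem' := fun i j h => Matrix.one_apply_ne (ne_of_gt h)
  inv_mem' := by
    intro a ha
    have ha' : a.1.BlockTriangular id := fun i j h => ha i j h
    have h1 : (a⁻¹).1 = a.1⁻¹ := by
      rw [Matrix.SpecialLinearGroup.coe_inv, Matrix.inv_def, a.2, Ring.inverse_one, one_smul]
    have hu : IsUnit a.1.det := by rw [a.2]; exact isUnit_one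
    let _ : Invertible a.1 := Matrix.invertibleOfIsUnitDet _ hu
    have h2 := Matrix.blockTriangular_inv_of_blockTriangular ha'
    intro i j h
    rw [h1]
    exact h2 h

variable {n k}

/-- the character `b ↦ (b⁻¹)₀₀` of the Borel subgroup of `SL_{m+2}` -/
def chi (m : ℕ) (k : Type u) [Field k] : borel (m + 2) k →* k where
  toFun b := (b⁻¹ : borel (m + 2) k).1.1 0 0
  map_one' := by
    rw [inv_one]
    exact Matrix.one_apply_eq 0
  map_mul' a b := by
    rw [mul_inv_rev]
    change ((b⁻¹ : borel (m + 2) k).1.1 * (a⁻¹ : borel (m + 2) k).1.1) 0 0 = _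
    rw [Matrix.mul_apply, Finset.sum_eq_single 0, mul_comm]
    · intro j _ hj
      rw [(a⁻¹ : borel (m + 2) k).2 j 0 (Fin.pos_of_ne_zero hj), mul_zero]
    · intro h
      exact absurd (Finset.mem_univ _) h

end special_linear

end Pool.Agent.Y85.NSI
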