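import Pool.Agent.Y85.NSI.Defs

/-!
# Numerical semigroup rings are one-dimensional Cohen-Macaulay domains
-/

set_option autoImplicit false

namespace Pool.Agent.Y85.NSI

universe u

open Polynomial

variable {k : Type u} [Field k] {T : AddSubmonoid ℕ}

/-- A numerical semigroup different from `ℕ` has a largest gap. -/
theorem exists_gap (hfin : {n : ℕ | n ∉ T}.Finite) (hne : T ≠ ⊤) :
    ∃ e, e ∉ T ∧ ∀ n, e < n → n ∈ T := by
  have h1 : ({n : ℕ | n ∉ T}).Nonempty := by
    by_contra h
    rw [Set.not_nonempty_iff_eq_empty] at h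
    apply hne
    rw [eq_top_iff]
    intro n _
    by_contra hn
    have h2 : n ∈ ({n : ℕ | n ∉ T}) := hn
    rw [h] at h2
    exact h2
  obtain ⟨e, he, hmax⟩ := Set.exists_max_image _ id hfin h1
  refine ⟨e, he, fun n hn => ?_⟩
  by_contra h
  exact absurd (hmax n h) (not_le.2 hn)

section

variable (e : ℕ) (hT : ∀ n, e < n → n ∈ T)

/-- the subring generated by `t ^ (e + 1)` -/
noncomputable def dd (k : Type u) [Field k] (T : AddSubmonoid ℕ) (e : ℕ) : k[X] →ₐ[k] nsr k T :=
  Polynomial.aeval (xm (e + 1))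

open scoped Classical in
theorem val_xm (n : ℕ) : (nsr k T).val (xm n) = if n ∈ T then X ^ n else 0 := rfl

theorem xm_mul (m n : ℕ) (hm : m ∈ T) (hn : n ∈ T) : (xm m : nsr k T) * xm n = xm (m + n) := by
  refine Subtype.ext ?_
  change (nsr k T).val (xm m) * (nsr k T).val (xm n) = (nsr k T).val (xm (m + n))
  rw [val_xm, val_xm, val_xm, if_pos hm, if_pos hn, if_pos (T.add_mem hm hn), pow_add]

theorem eq_sum (r : nsr k T) : ∃ d, r = ∑ n ∈ Finset.range (d + 1), cf n r • (xm n : nsr k T) := by
  obtain ⟨d, hd⟩ := cf_bd r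
  exact ⟨d, nsr_ext fun m => (cf_sum m d (fun n => cf n r) (fun n hn => cf_gap hn r) hd).symm⟩

include hT in
theorem dd_finite : (dd k T e : k[X] →+* nsr k T).Finite := by
  let _ : Algebra k[X] (nsr k T) := (dd k T e : k[X] →+* nsr k T).toAlgebra
  change Module.Finite k[X] (nsr k T)
  rw [Module.finite_def, Submodule.fg_def]
  refine ⟨(fun i => (xm i : nsr k T)) '' (Finset.range (2 * (e + 1)) : Set ℕ),
    (Finset.finite_toSet _).image _, ?_⟩
  rw [eq_top_iff]
  rintro r -
  have hx : ∀ n, (xm n : nsr k T) ∈ Submodule.span k[X]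
      ((fun i => (xm i : nsr k T)) '' (Finset.range (2 * (e + 1)) : Set ℕ)) := by
    intro n
    induction n using Nat.strong_induction_on with
    | _ n ih =>
      by_cases h1 : n < 2 * (e + 1)
      · exact Submodule.subset_span ⟨n, by simpa using h1, rfl⟩
      · have h2 : (xm n : nsr k T) = (X : k[X]) • (xm (n - (e + 1)) : nsr k T) := by
          rw [Algebra.smul_def]
          change _ = dd k T e X * _
          rw [dd, aeval_X, xm_mul _ _ (hT _ (by omega)) (hT _ (by omega))]
          congr 1
          omega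
        rw [h2]
        exact Submodule.smul_mem _ _ (ih _ (by omega))
  obtain ⟨d, hd⟩ := eq_sum r
  rw [hd]
  refine Submodule.sum_mem _ fun n _ => ?_
  have : cf n r • (xm n : nsr k T) = (C (cf n r) : k[X]) • (xm n : nsr k T) := by
    rw [Algebra.smul_def, Algebra.smul_def]
    congr 1
    change _ = dd k T e (C (cf n r))
    rw [dd, aeval_C]
  rw [this]
  exact Submodule.smul_mem _ _ (hx n)

include hT in
theorem nsr_noetherian : IsNoetherianRing (nsr k T) := by
  let _ : Algebra k[X] (nsr k T) := (dd k T e : k[X] →+* nsr k T).toAlgebra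
  have : Module.Finite k[X] (nsr k T) := dd_finite e hT
  exact IsNoetherianRing.of_finite k[X] (nsr k T)

include hT in
theorem nsr_finiteType : Algebra.FiniteType k (nsr k T) := by
  let _ : Algebra k[X] (nsr k T) := (dd k T e : k[X] →+* nsr k T).toAlgebra
  have h1 : Module.Finite k[X] (nsr k T) := dd_finite e hT
  have h2 : IsScalarTower k k[X] (nsr k T) :=
    IsScalarTower.of_algebraMap_eq' (dd k T e).comp_algebraMap.symm
  exact Algebra.FiniteType.trans (S := k[X]) inferInstance inferInstance

include hT in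
theorem nsr_dim_le : ringKrullDim (nsr k T) ≤ 1 := by
  let _ : Algebra k[X] (nsr k T) := (dd k T e : k[X] →+* nsr k T).toAlgebra
  have : Module.Finite k[X] (nsr k T) := dd_finite e hT
  refine le_trans (Pool.Agent.H957R3.CM.ringKrullDim_le_of_integral k[X] (nsr k T)) ?_
  rw [IsPrincipalIdealRing.ringKrullDim_eq_one k[X] (Polynomial.not_isField k)]

theorem nsr_domain : IsDomain (nsr k T) := inferInstance

include hT in
theorem nsr_not_isField : ¬ IsField (nsr k T) := by
  intro h
  have hm : e + 1 ∈ T := hT _ (Nat.lt_succ_self e)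
  have h0 : (xm (e + 1) : nsr k T) ≠ 0 := by
    intro h1
    have h2 := congrArg (cf (e + 1)) h1
    rw [cf_xm _ _ hm, map_zero, if_pos rfl] at h2
    exact one_ne_zero h2
  obtain ⟨y, hy⟩ := h.mul_inv_cancel h0
  have h3 := congrArg (fun p : k[X] => p.coeff 0) (congrArg (nsr k T).val hy)
  beta_reduce at h3
  rw [map_mul, val_xm, if_pos hm, map_one, mul_coeff_zero, coeff_X_pow, if_neg (by omega),
    zero_mul, coeff_one_zero] at h3
  exact zero_ne_one h3

include hT in
theorem nsr_dim : ringKrullDim (nsr k T) = 1 := by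
  refine le_antisymm (nsr_dim_le e hT) ?_
  have hd : IsDomain (nsr k T) := nsr_domain
  obtain ⟨p, hp, h⟩ := Ring.not_isField_iff_exists_prime.mp (nsr_not_isField (k := k) e hT)
  have hb : (⊥ : Ideal (nsr k T)).IsPrime := Ideal.isPrime_bot
  have h1 := Ideal.height_add_one_le_of_lt_of_isPrime (bot_lt_iff_ne_bot.2 hp)
  have h2 : (1 : ℕ∞) ≤ p.height := le_trans (by simp) h1
  exact le_trans (WithBot.coe_le_coe.2 h2) Ideal.height_le_ringKrullDim_of_isPrime

include hT in
theorem nsr_cm : Pool.Agent.H957R3.CM.IsCohenMacaulayRing (nsr k T) := by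
  have := nsr_noetherian (k := k) e hT
  have hd : IsDomain (nsr k T) := nsr_domain
  exact Pool.Agent.H957R3.CM.ring_of_reduced_dim_le_one (nsr k T) (nsr_dim_le e hT)

end

end Pool.Agent.Y85.NSI
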