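import Pool.Agent.Y85.NSI.SLn
import Pool.Agent.Y85.NSI.Ring

/-!
# Semi-invariant functions on `SL_n` depend on the first column only
-/

set_option autoImplicit false

namespace Pool.Agent.Y85.NSI

universe u v

open Polynomial

variable {k : Type u} [Field k] {m : ℕ}

/-- the block embedding -/
def EM (M : Matrix (Fin (m + 1)) (Fin (m + 1)) k) : Matrix (Fin (m + 2)) (Fin (m + 2)) k :=
  Matrix.of fun i j => Fin.cases (motive := fun _ => k)
    (Fin.cases (motive := fun _ => k) 1 (fun _ => 0) j)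
    (fun i' => Fin.cases (motive := fun _ => k) 0 (fun j' => M i' j') j) i

theorem EM_00 (M : Matrix (Fin (m + 1)) (Fin (m + 1)) k) : EM M 0 0 = 1 := rfl
theorem EM_0s (M : Matrix (Fin (m + 1)) (Fin (m + 1)) k) (j : Fin (m + 1)) :
    EM M 0 j.succ = 0 := rfl
theorem EM_s0 (M : Matrix (Fin (m + 1)) (Fin (m + 1)) k) (i : Fin (m + 1)) :
    EM M i.succ 0 = 0 := rfl
theorem EM_ss (M : Matrix (Fin (m + 1)) (Fin (m + 1)) k) (i j : Fin (m + 1)) :
    EM M i.succ j.succ = M i j := rfl

theorem EM_mul (A C : Matrix (Fin (m + 1)) (Fin (m + 1)) k) : EM (A * C) = EM A * EM C := by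
  ext i j
  refine Fin.cases ?_ (fun i => ?_) i <;> refine Fin.cases ?_ (fun j => ?_) j
  · rw [Matrix.mul_apply, Fin.sum_univ_succ]
    simp [EM_00, EM_0s]
  · rw [Matrix.mul_apply, Fin.sum_univ_succ]
    simp [EM_00, EM_0s]
  · rw [Matrix.mul_apply, Fin.sum_univ_succ]
    simp [EM_00, EM_s0]
  · rw [Matrix.mul_apply, Fin.sum_univ_succ]
    simp [EM_s0, EM_ss, Matrix.mul_apply]

theorem EM_det (M : Matrix (Fin (m + 1)) (Fin (m + 1)) k) : (EM M).det = M.det := by
  rw [Matrix.det_succ_row_zero, Fin.sum_univ_succ, Finset.sum_eq_zero, add_zero]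
  · rw [EM_00]
    simp only [Fin.val_zero, pow_zero, one_mul, Fin.succAbove_zero]
    congr 1
  · intro j _
    rw [EM_0s, mul_zero, zero_mul]

theorem EM_transv (i j : Fin (m + 1)) (c : k) :
    EM (Matrix.transvection i j c) = Matrix.transvection i.succ j.succ c := by
  ext a b
  refine Fin.cases ?_ (fun a => ?_) a <;> refine Fin.cases ?_ (fun b => ?_) b
  · simp [EM_00, Matrix.transvection, Matrix.single_apply]
  · simp [EM_0s, Matrix.transvection, Matrix.single_apply, Matrix.one_apply,
      (Fin.succ_ne_zero _).symm]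
  · simp [EM_s0, Matrix.transvection, Matrix.single_apply, Matrix.one_apply]
  · simp [EM_ss, Matrix.transvection, Matrix.single_apply, Matrix.one_apply]

section

variable [Infinite k] (f : SL (m + 2) k → k)
  (hf : IsMorphism (fun g : SL (m + 2) k => inc (m + 2) k g) f) (n : ℕ)
  (hB : ∀ (g : SL (m + 2) k) (b : borel (m + 2) k), f (g * b) = b.1.1 0 0 ^ n * f g)

include hf hB in
theorem stab_EM (M : Matrix (Fin (m + 1)) (Fin (m + 1)) k) (hM : M.det = 1) :
    ∃ h : (EM M).det = 1, ∀ x : SL (m + 2) k, f (x * ⟨EM M, h⟩) = f x := by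
  refine Matrix.diagonal_transvection_induction
    (fun M => ∃ h : (EM M).det = 1, ∀ x : SL (m + 2) k, f (x * ⟨EM M, h⟩) = f x) M ?_ ?_ ?_
  · intro D hD
    have h1 : (EM (Matrix.diagonal D)).det = 1 := by rw [EM_det, hD, hM]
    refine ⟨h1, fun x => ?_⟩
    have h2 : (⟨EM (Matrix.diagonal D), h1⟩ : SL (m + 2) k) ∈ borel (m + 2) k := by
      intro a b
      change b < a → EM (Matrix.diagonal D) a b = 0
      refine Fin.cases ?_ (fun a => ?_) a <;> refine Fin.cases ?_ (fun b => ?_) b
      · intro h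
        exact absurd h (lt_irrefl _)
      · intro h
        exact absurd h (Fin.not_lt_zero _)
      · intro _
        exact EM_s0 _ _
      · intro h
        rw [EM_ss]
        exact Matrix.diagonal_apply_ne _ (ne_of_gt (Fin.succ_lt_succ_iff.1 h))
    have h3 := hB x ⟨⟨EM (Matrix.diagonal D), h1⟩, h2⟩
    rw [h3]
    change (1 : k) ^ n * f x = f x
    rw [one_pow, one_mul]
  · rintro ⟨i, j, hij, c⟩
    have hij' : i.succ ≠ j.succ := fun h => hij (Fin.succ_injective _ h)
    have h1 : (EM (Matrix.transvection i j c)).det = 1 := by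
      rw [EM_det, Matrix.det_transvection_of_ne _ _ hij]
    refine ⟨h1, fun x => ?_⟩
    change f (x * ⟨EM (Matrix.transvection i j c), h1⟩) = f x
    rcases lt_or_gt_of_ne hij with h | h
    · have h2 : (⟨EM (Matrix.transvection i j c), h1⟩ : SL (m + 2) k) ∈ borel (m + 2) k := by
        intro a b hab
        change EM (Matrix.transvection i j c) a b = 0
        rw [EM_transv, Matrix.transvection, Matrix.add_apply, Matrix.one_apply_ne (ne_of_gt hab),
          zero_add, Matrix.single_apply, if_neg]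
        rintro ⟨rfl, rfl⟩
        exact lt_asymm (Fin.succ_lt_succ_iff.2 h) hab
      have h3 := hB x ⟨⟨EM (Matrix.transvection i j c), h1⟩, h2⟩
      rw [h3]
      change (1 : k) ^ n * f x = f x
      rw [one_pow, one_mul]
    · have h' : j.succ < i.succ := Fin.succ_lt_succ_iff.2 h
      have h2 := phi_inv f hf j.succ i.succ (ne_of_lt h')
        (fun g b hb => by
          have h4 := hB g ⟨phi j.succ i.succ (ne_of_lt h') b, phi_mem j.succ i.succ h' b hb⟩
          rw [h4]
          have h5 : (phi j.succ i.succ (ne_of_lt h') b).1 0 0 = 1 := by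
            change ee j.succ i.succ b.1 0 0 = 1
            rw [ee_apply, if_pos rfl, if_neg (Fin.succ_ne_zero _).symm,
              if_neg (Fin.succ_ne_zero _).symm, add_zero, add_zero]
          change (phi j.succ i.succ (ne_of_lt h') b).1 0 0 ^ n * f g = f g
          rw [h5, one_pow, one_mul]) x (Pool.Agent.H957R3.Ind.lo c)
      have h3 : phi j.succ i.succ (ne_of_lt h') (Pool.Agent.H957R3.Ind.lo c) =
          (⟨EM (Matrix.transvection i j c), h1⟩ : SL (m + 2) k) :=
        Subtype.ext ((phi_lo j.succ i.succ (ne_of_lt h') c).trans (EM_transv i j c).symm)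
      rw [h3] at h2
      exact h2
  · rintro A C ⟨hA, hA'⟩ ⟨hC, hC'⟩
    have h1 : (EM (A * C)).det = 1 := by rw [EM_mul, Matrix.det_mul, hA, hC, one_mul]
    refine ⟨h1, fun x => ?_⟩
    let a' : SL (m + 2) k := ⟨EM A, hA⟩
    let c' : SL (m + 2) k := ⟨EM C, hC⟩
    have h4 : (⟨EM (A * C), h1⟩ : SL (m + 2) k) = a' * c' := Subtype.ext (EM_mul A C)
    rw [h4, ← mul_assoc]
    exact (hC' (x * a')).trans (hA' x)

include hf hB in
/-- the value depends on the first column only -/
theorem same_col (g g' : SL (m + 2) k) (h : ∀ i, g.1 i 0 = g'.1 i 0) : f g = f g' := by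
  obtain ⟨u, hu⟩ : ∃ u : SL (m + 2) k, u = g⁻¹ * g' := ⟨_, rfl⟩
  have hg' : g' = g * u := by rw [hu, mul_inv_cancel_left]
  have hu0 : ∀ i, u.1 i 0 = (1 : Matrix (Fin (m + 2)) (Fin (m + 2)) k) i 0 := by
    intro i
    have h1 : u.1 i 0 = ((g⁻¹ : SL (m + 2) k).1 * g'.1) i 0 := by rw [hu]; rfl
    have h2 : ((g⁻¹ : SL (m + 2) k).1 * g.1) i 0 = ((g⁻¹ * g : SL (m + 2) k)).1 i 0 := rfl
    rw [h1, Matrix.mul_apply]
    simp only [← h]
    rw [← Matrix.mul_apply, h2, inv_mul_cancel]
    rfl
  have h00 : u.1 0 0 = 1 := by rw [hu0, Matrix.one_apply_eq]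
  have hs0 : ∀ i : Fin (m + 1), u.1 i.succ 0 = 0 := fun i => by
    rw [hu0, Matrix.one_apply_ne (Fin.succ_ne_zero _)]
  have hd : (u.1.submatrix Fin.succ Fin.succ).det = 1 := by
    have h1 := u.2
    rw [Matrix.det_succ_column_zero, Fin.sum_univ_succ, Finset.sum_eq_zero, add_zero, h00] at h1
    · simp only [Fin.val_zero, pow_zero, one_mul, Fin.succAbove_zero] at h1
      exact h1
    · intro i _
      rw [hs0, mul_zero, zero_mul]
  obtain ⟨hE, hE'⟩ := stab_EM f hf n hB (u.1.submatrix Fin.succ Fin.succ) hd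
  let b : Matrix (Fin (m + 2)) (Fin (m + 2)) k := Matrix.of fun i j =>
    Fin.cases (motive := fun _ => k) (u.1 0 j) (fun i' => if i'.succ = j then 1 else 0) i
  have hb0 : ∀ j, b 0 j = u.1 0 j := fun j => rfl
  have hbs : ∀ (i : Fin (m + 1)) j, b i.succ j = if i.succ = j then 1 else 0 := fun i j => rfl
  have hmul : EM (u.1.submatrix Fin.succ Fin.succ) * b = u.1 := by
    ext i j
    rw [Matrix.mul_apply, Fin.sum_univ_succ]
    refine Fin.cases ?_ (fun i => ?_) i
    · rw [EM_00, one_mul, hb0, Finset.sum_eq_zero, add_zero]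
      intro c _
      rw [EM_0s, zero_mul]
    · rw [EM_s0, zero_mul, zero_add]
      simp only [EM_ss, hbs]
      refine Fin.cases ?_ (fun j => ?_) j
      · rw [hs0]
        refine Finset.sum_eq_zero fun c _ => ?_
        rw [if_neg (Fin.succ_ne_zero _), mul_zero]
      · rw [Finset.sum_eq_single j]
        · rw [if_pos rfl, mul_one]
          rfl
        · intro c _ hc
          rw [if_neg (fun e => hc (Fin.succ_injective _ e)), mul_zero]
        · intro h
          exact absurd (Finset.mem_univ _) h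
  have hbd : b.det = 1 := by
    have h1 := congrArg Matrix.det hmul
    rw [Matrix.det_mul, hE, one_mul, u.2] at h1
    exact h1
  have hbB : (⟨b, hbd⟩ : SL (m + 2) k) ∈ borel (m + 2) k := by
    intro i j
    change j < i → b i j = 0
    refine Fin.cases ?_ (fun i => ?_) i
    · intro h
      exact absurd h (Fin.not_lt_zero _)
    · intro h
      rw [hbs, if_neg (ne_of_gt h)]
  let E : SL (m + 2) k := ⟨EM (u.1.submatrix Fin.succ Fin.succ), hE⟩
  let b' : SL (m + 2) k := ⟨b, hbd⟩
  have huE : u = E * b' := Subtype.ext hmul.symm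
  have h5 := hB (g * E) ⟨⟨b, hbd⟩, hbB⟩
  have h6 : g' = g * E * b' := by rw [hg', huE, mul_assoc]
  rw [h6]
  refine Eq.symm (h5.trans ?_)
  change b 0 0 ^ n * f (g * E) = f g
  rw [hb0, h00, one_pow, one_mul]
  exact hE' g

end

end Pool.Agent.Y85.NSI
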