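import Pool.Agent.Y85.NSI.Base

/-!
# Induction of algebras for groups of matrices

`Γ` is a group of matrices: a group with a homomorphism `ι` to the matrices of size `N` over the
field `k` (for example `SL_N(k)` and its subgroups). `B` is a subgroup of `Γ`.
-/

set_option autoImplicit false

namespace Pool.Agent.Y85.NSI

universe u v

open Polynomial

variable {k : Type u} [Field k] {N : ℕ} {Γ : Type u} [Group Γ]

/-! ### Rules for morphisms -/

section mor

variable {R : Type u} [CommRing R] [Algebra k R] {S : Type v}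
  {ι : S → Matrix (Fin N) (Fin N) k}

theorem mor_const (r : R) : IsMorphism ι (fun _ => r) := ⟨MvPolynomial.C r, fun s => by simp⟩

theorem mor_add {f g : S → R} (hf : IsMorphism ι f) (hg : IsMorphism ι g) :
    IsMorphism ι (fun s => f s + g s) := by
  obtain ⟨Φ, hΦ⟩ := hf
  obtain ⟨Ψ, hΨ⟩ := hg
  exact ⟨Φ + Ψ, fun s => by rw [map_add, ← hΦ, ← hΨ]⟩

theorem mor_mul {f g : S → R} (hf : IsMorphism ι f) (hg : IsMorphism ι g) :
    IsMorphism ι (fun s => f s * g s) := by
  obtain ⟨Φ, hΦ⟩ := hf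
  obtain ⟨Ψ, hΨ⟩ := hg
  exact ⟨Φ * Ψ, fun s => by rw [map_mul, ← hΦ, ← hΨ]⟩

theorem mor_pow {f : S → R} (hf : IsMorphism ι f) (n : ℕ) : IsMorphism ι (fun s => f s ^ n) := by
  obtain ⟨Φ, hΦ⟩ := hf
  exact ⟨Φ ^ n, fun s => by rw [map_pow, ← hΦ]⟩

theorem mor_sum {α : Type} (t : Finset α) {f : α → S → R} (hf : ∀ i, IsMorphism ι (f i)) :
    IsMorphism ι (fun s => ∑ i ∈ t, f i s) := by
  choose Φ hΦ using hf
  exact ⟨∑ i ∈ t, Φ i, fun s => by rw [map_sum]; exact Finset.sum_congr rfl fun i _ => hΦ i s⟩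

theorem mor_entry (i j : Fin N) : IsMorphism (R := k) ι (fun s => ι s i j) :=
  ⟨MvPolynomial.X (i, j), fun s => by simp⟩

theorem mor_smul {f : S → k} (hf : IsMorphism ι f) (r : R) :
    IsMorphism ι (fun s => f s • r) := by
  obtain ⟨Φ, hΦ⟩ := hf
  refine ⟨MvPolynomial.map (algebraMap k R) Φ * MvPolynomial.C r, fun s => ?_⟩
  show f s • r = _
  rw [hΦ s, map_mul, MvPolynomial.eval_C, Algebra.smul_def]
  congr 1
  rw [MvPolynomial.eval_map, MvPolynomial.eval₂_eq', MvPolynomial.eval_eq', map_sum]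
  refine Finset.sum_congr rfl fun d _ => ?_
  rw [map_mul, map_prod]
  simp

theorem mor_lin {R' : Type u} [CommRing R'] [Algebra k R'] (L : R →ₗ[k] R') {f : S → R}
    (hf : IsMorphism ι f) : IsMorphism ι (fun s => L (f s)) := by
  obtain ⟨Φ, hΦ⟩ := hf
  suffices h : ∀ Φ : MvPolynomial (Fin N × Fin N) R, IsMorphism ι
      (fun s => L (MvPolynomial.eval (fun ij => algebraMap k R (ι s ij.1 ij.2)) Φ)) by
    obtain ⟨Ψ, hΨ⟩ := h Φ
    refine ⟨Ψ, fun s => ?_⟩
    rw [← hΨ]
    exact congrArg L (hΦ s)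
  intro Φ
  induction Φ using MvPolynomial.induction_on with
  | C r => simpa using mor_const (ι := ι) (L r)
  | add p q hp hq =>
    simp only [map_add]
    exact mor_add hp hq
  | mul_X p i hp =>
    obtain ⟨P, hP⟩ := hp
    refine ⟨P * MvPolynomial.X i, fun s => ?_⟩
    beta_reduce
    rw [MvPolynomial.eval_mul, MvPolynomial.eval_mul, MvPolynomial.eval_X, MvPolynomial.eval_X,
      mul_comm, ← Algebra.smul_def, map_smul, ← hP, Algebra.smul_def, mul_comm]

theorem mor_bound {Φ : MvPolynomial (Fin N × Fin N) R} (L : ℕ → R →ₗ[k] k)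
    (hL : ∀ r, ∃ d, ∀ n, d < n → L n r = 0) :
    ∃ d, ∀ (x : Fin N × Fin N → k) (n : ℕ), d < n →
      L n (MvPolynomial.eval (fun ij => algebraMap k R (x ij)) Φ) = 0 := by
  induction Φ using MvPolynomial.induction_on with
  | C r =>
    obtain ⟨d, hd⟩ := hL r
    refine ⟨d, fun x n hn => ?_⟩
    rw [MvPolynomial.eval_C]
    exact hd n hn
  | add p q hp hq =>
    obtain ⟨d, hd⟩ := hp
    obtain ⟨e, he⟩ := hq
    refine ⟨max d e, fun x n hn => ?_⟩
    rw [map_add, map_add, hd x n (lt_of_le_of_lt (le_max_left _ _) hn),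
      he x n (lt_of_le_of_lt (le_max_right _ _) hn), add_zero]
  | mul_X p i hp =>
    obtain ⟨d, hd⟩ := hp
    refine ⟨d, fun x n hn => ?_⟩
    rw [map_mul, MvPolynomial.eval_X, mul_comm, ← Algebra.smul_def, map_smul, hd x n hn, smul_zero]

end mor

/-! ### Numerical semigroup rings -/

variable {T : AddSubmonoid ℕ}

theorem mem_nsr {f : k[X]} : f ∈ nsr k T ↔ ∀ n, n ∉ T → f.coeff n = 0 := Iff.rfl

/-- coefficients -/
noncomputable def cf (n : ℕ) : nsr k T →ₗ[k] k :=
  (Polynomial.lcoeff k n) ∘ₗ (nsr k T).val.toLinearMap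

theorem cf_apply (n : ℕ) (r : nsr k T) : cf n r = (r : k[X]).coeff n := rfl

theorem cf_gap {n : ℕ} (hn : n ∉ T) (r : nsr k T) : cf n r = 0 := r.2 n hn

theorem nsr_ext {r s : nsr k T} (h : ∀ n, cf n r = cf n s) : r = s :=
  Subtype.ext (Polynomial.ext h)

open scoped Classical in
/-- the monomials (zero for the gaps) -/
noncomputable def xm (n : ℕ) : nsr k T := ⟨if n ∈ T then X ^ n else 0, by
  rw [mem_nsr]
  intro m hm
  split_ifs with h
  · rw [coeff_X_pow, if_neg (fun e => hm (by rw [e]; exact h))]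
  · rfl⟩

theorem cf_xm (m n : ℕ) (hm : m ∈ T) : cf m (xm n : nsr k T) = if m = n then 1 else 0 := by
  rw [cf_apply, xm]
  by_cases h : n ∈ T
  · simp only [if_pos h]
    rw [coeff_X_pow]
  · simp only [if_neg h]
    rw [coeff_zero, if_neg (fun e => h (by rw [← e]; exact hm))]

theorem cf_sum (m d : ℕ) (c : ℕ → k) (h1 : ∀ n, n ∉ T → c n = 0) (hc : ∀ n, d < n → c n = 0) :
    cf m (∑ n ∈ Finset.range (d + 1), c n • (xm n : nsr k T)) = c m := by
  by_cases hmT : m ∈ T
  · rw [map_sum]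
    simp only [map_smul, cf_xm _ _ hmT, smul_eq_mul]
    by_cases hm : m ∈ Finset.range (d + 1)
    · rw [Finset.sum_eq_single m]
      · rw [if_pos rfl, mul_one]
      · intro n _ hn
        rw [if_neg (fun h => hn h.symm), mul_zero]
      · intro h
        exact absurd hm h
    · rw [hc m (by simpa using hm)]
      refine Finset.sum_eq_zero fun n hn => ?_
      have h0 : ¬ (m = n) := fun h => hm (h ▸ hn)
      rw [if_neg h0, mul_zero]
  · rw [cf_gap hmT, h1 m hmT]

theorem cf_bd (r : nsr k T) : ∃ d, ∀ n, d < n → cf n r = 0 :=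
  ⟨(r : k[X]).natDegree, fun _ hn => coeff_eq_zero_of_natDegree_lt hn⟩

/-- a map to `k[S]` is a morphism if its coefficients are -/
theorem mor_of_cf {S : Type v} {ι : S → Matrix (Fin N) (Fin N) k} (c : ℕ → S → k) (d : ℕ)
    (hc : ∀ n, IsMorphism ι (c n)) :
    IsMorphism ι (fun s => ∑ n ∈ Finset.range (d + 1), c n s • (xm n : nsr k T)) :=
  mor_sum _ fun n => mor_smul (hc n) _

/-- scaling the variable -/
noncomputable def scale (c : k) : k[X] →ₐ[k] k[X] := Polynomial.aeval (C c * X)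

theorem scale_coeff (c : k) (f : k[X]) (n : ℕ) : (scale c f).coeff n = c ^ n * f.coeff n := by
  induction f using Polynomial.induction_on' with
  | add p q hp hq => rw [map_add, coeff_add, coeff_add, hp, hq, mul_add]
  | monomial m a =>
    rw [scale, Polynomial.aeval_monomial, mul_pow, ← C_pow, Polynomial.algebraMap_eq,
      ← mul_assoc, ← C_mul, coeff_C_mul, coeff_X_pow, coeff_monomial]
    by_cases h : n = m
    · subst h; simp [mul_comm]
    · have h' : m ≠ n := fun e => h e.symm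
      simp [h, h']

/-- scaling on `k[S]` -/
noncomputable def act0 (c : k) : nsr k T →ₐ[k] nsr k T :=
  AlgHom.codRestrict ((scale c).comp (nsr k T).val) (nsr k T) (fun r => by
    rw [mem_nsr]
    intro n hn
    change (scale c (r : k[X])).coeff n = 0
    rw [scale_coeff, mem_nsr.1 r.2 n hn, mul_zero])

theorem cf_act0 (c : k) (n : ℕ) (r : nsr k T) : cf n (act0 c r) = c ^ n * cf n r :=
  scale_coeff c _ n

theorem act0_eq_sum (c : k) (r : nsr k T) (d : ℕ) (hd : ∀ n, d < n → cf n r = 0) :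
    act0 c r = ∑ n ∈ Finset.range (d + 1), (c ^ n * cf n r) • (xm n : nsr k T) := by
  refine nsr_ext fun m => ?_
  rw [cf_act0, cf_sum m d (fun n => c ^ n * cf n r) (fun n hn => by rw [cf_gap hn, mul_zero])
    (fun n hn => by rw [hd n hn, mul_zero])]

/-- The `B`-algebra `k[S]`: the group `B` acts by the character `χ` on `t`. -/
noncomputable def alg (ι : Γ →* Matrix (Fin N) (Fin N) k) (B : Subgroup Γ) (χ : B →* k)
    (hχ : IsMorphism (fun b : B => ι b) (fun b => χ b)) (T : AddSubmonoid ℕ) :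
    BAlgebra ι B (nsr k T) where
  act :=
    { toFun := fun b => act0 (χ b)
      map_one' := by
        refine AlgHom.ext fun r => nsr_ext fun n => ?_
        rw [map_one, cf_act0, one_pow, one_mul]
        rfl
      map_mul' := fun a b => by
        refine AlgHom.ext fun r => nsr_ext fun n => ?_
        change cf n (act0 (χ (a * b)) r) = cf n (act0 (χ a) (act0 (χ b) r))
        rw [cf_act0, cf_act0, cf_act0, map_mul, mul_pow, mul_assoc] }
  rational := by
    intro r
    obtain ⟨d, hd⟩ := cf_bd r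
    have h := mor_of_cf (T := T) (fun n (b : B) => χ b ^ n * cf n r) d
      (fun n => mor_mul (mor_pow hχ n) (mor_const _))
    obtain ⟨Φ, hΦ⟩ := h
    refine ⟨Φ, fun b => ?_⟩
    rw [← hΦ]
    exact act0_eq_sum (χ b) r d hd

end Pool.Agent.Y85.NSI
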