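import Pool.Agent.Y85.NSI.Form

/-!
# The induced algebras for `SL_n` are finitely generated
-/

set_option autoImplicit false

namespace Pool.Agent.Y85.NSI

universe u v

open Polynomial

variable {k : Type u} [Field k] {m : ℕ} {T : AddSubmonoid ℕ}

/-- the induced algebra of `k[T]` for `SL_{m+2}` -/
abbrev IS (k : Type u) [Field k] (m : ℕ) (T : AddSubmonoid ℕ) : Type u :=
  II (inc (m + 2) k) (borel (m + 2) k) (chi m k) (chi_reg m) T

theorem mor_prod {N : ℕ} {S : Type v} {ι : S → Matrix (Fin N) (Fin N) k} {α : Type}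
    (t : Finset α) {f : α → S → k} (hf : ∀ i, IsMorphism ι (f i)) :
    IsMorphism ι (fun s => ∏ i ∈ t, f i s) := by
  choose Φ hΦ using hf
  exact ⟨∏ i ∈ t, Φ i, fun s => by rw [map_prod]; exact Finset.prod_congr rfl fun i _ => hΦ i s⟩

/-- monomials in the first column -/
def vm (α : Fin (m + 2) →₀ ℕ) (g : SL (m + 2) k) : k := ∏ i, g.1 i 0 ^ α i

theorem vm_mor (α : Fin (m + 2) →₀ ℕ) :
    IsMorphism (fun g : SL (m + 2) k => inc (m + 2) k g) (vm α) :=
  mor_prod _ fun i => mor_pow (mor_entry i 0) (α i)

theorem vm_semi (α : Fin (m + 2) →₀ ℕ) (g : SL (m + 2) k) (b : borel (m + 2) k) :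
    vm α (g * b.1) = chi m k b⁻¹ ^ α.degree * vm α g := by
  unfold vm
  simp only [semi, mul_pow, Finset.prod_mul_distrib]
  rw [Finset.prod_pow_eq_pow_sum, Finsupp.degree_eq_sum]

theorem chi_inv (b : borel (m + 2) k) : chi m k b⁻¹ = b.1.1 0 0 := by
  change (b⁻¹⁻¹ : borel (m + 2) k).1.1 0 0 = b.1.1 0 0
  rw [inv_inv]

/-- monomials in the induced algebra -/
noncomputable def mono (α : Fin (m + 2) →₀ ℕ) (hα : α.degree ∈ T) : IS k m T :=
  mk (fun n g => if n = α.degree then vm α g else 0) α.degree
    (fun n hn g => if_neg fun h => hn (by rw [h]; exact hα))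
    (fun n hn g => if_neg (ne_of_gt hn))
    (fun n => by
      by_cases h : n = α.degree
      · simp only [if_pos h]
        exact vm_mor α
      · simp only [if_neg h]
        exact mor_const 0)
    (fun n g b => by
      by_cases h : n = α.degree
      · simp only [if_pos h]
        rw [vm_semi, h]
      · simp only [if_neg h, mul_zero])

theorem ev'_mono (α : Fin (m + 2) →₀ ℕ) (hα : α.degree ∈ T) (g : SL (m + 2) k) :
    ev' g (mono α hα : IS k m T) = C (vm α g) * X ^ α.degree := by
  refine Polynomial.ext fun n => ?_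
  rw [coeff_ev', mono, co_mk, coeff_C_mul, coeff_X_pow]
  by_cases h : n = α.degree
  · rw [if_pos h, if_pos h, mul_one]
  · rw [if_neg h, if_neg h, mul_zero]

theorem mono_add (α β : Fin (m + 2) →₀ ℕ) (hα : α.degree ∈ T) (hβ : β.degree ∈ T)
    (h : (α + β).degree ∈ T) :
    (mono (α + β) h : IS k m T) = mono α hα * mono β hβ := by
  refine II_ext' fun g => ?_
  have h1 : vm (α + β) g = vm α g * vm β g := by
    unfold vm
    rw [← Finset.prod_mul_distrib]
    exact Finset.prod_congr rfl fun i _ => by rw [Finsupp.add_apply, pow_add]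
  rw [map_mul, ev'_mono, ev'_mono, ev'_mono, h1, map_add, pow_add, C_mul]
  ring

open scoped Classical in
/-- monomials, zero outside the semigroup -/
noncomputable def mono' (k : Type u) [Field k] (T : AddSubmonoid ℕ) (α : Fin (m + 2) →₀ ℕ) :
    IS k m T :=
  if hα : α.degree ∈ T then mono α hα else 0

/-- the induced algebra is finitely generated -/
theorem finiteType [Infinite k] (e : ℕ) (hT : ∀ n, e < n → n ∈ T) :
    Algebra.FiniteType k (IS k m T) := by
  refine ⟨Subalgebra.fg_def.2 ⟨mono' k T '' {α : Fin (m + 2) →₀ ℕ | α.degree ≤ 2 * (e + 1)},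
    (Finsupp.finite_of_degree_le _).image _, ?_⟩⟩
  set Adj := Algebra.adjoin k
    (mono' k T '' {α : Fin (m + 2) →₀ ℕ | α.degree ≤ 2 * (e + 1)}) with hAdj
  have hm : ∀ (d : ℕ) (α : Fin (m + 2) →₀ ℕ) (hα : α.degree ∈ T), α.degree = d →
      (mono α hα : IS k m T) ∈ Adj := by
    intro d
    induction d using Nat.strong_induction_on with
    | _ d ih =>
      intro α hα hd
      by_cases h1 : α.degree ≤ 2 * (e + 1)
      · refine Algebra.subset_adjoin ⟨α, h1, ?_⟩
        rw [mono', dif_pos hα]
      · obtain ⟨β, hβ, hβd⟩ := Finsupp.exists_le_degree_eq α (e + 1) (by omega)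
        have h2 : β + (α - β) = α := add_tsub_cancel_of_le hβ
        have h3 : β.degree + (α - β).degree = α.degree := by rw [← map_add, h2]
        have hβT : β.degree ∈ T := hT _ (by omega)
        have hγT : (α - β).degree ∈ T := hT _ (by omega)
        have h4 : (mono α hα : IS k m T) = mono β hβT * mono (α - β) hγT := by
          rw [← mono_add β (α - β) hβT hγT (by rw [h2]; exact hα)]
          congr 1
          exact h2.symm
        rw [h4]
        exact Subalgebra.mul_mem _ (ih _ (by omega) β hβT rfl) (ih _ (by omega) (α - β) hγT rfl)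
  have hm' : ∀ α : Fin (m + 2) →₀ ℕ, mono' k T α ∈ Adj := by
    intro α
    rw [mono']
    split_ifs with h
    · exact hm _ α h rfl
    · exact Subalgebra.zero_mem _
  rw [eq_top_iff]
  rintro F -
  obtain ⟨d, hd⟩ := co_bd F
  choose q hq hq' using fun n => form (co F n) (co_mor F n) n
    (fun g b => by rw [co_eq, chi_inv])
  have hF : F = ∑ n ∈ Finset.range (d + 1), ∑ α ∈ (q n).support,
      MvPolynomial.coeff α (q n) • mono' k T α := by
    refine II_ext' fun g => ?_
    have h1 : (ev' g F).natDegree < d + 1 :=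
      Nat.lt_succ_of_le (Polynomial.natDegree_le_iff_coeff_eq_zero.2 fun n hn => hd n hn g)
    refine (Polynomial.as_sum_range_C_mul_X_pow' _ h1).trans ?_
    rw [map_sum]
    refine Finset.sum_congr rfl fun n _ => ?_
    rw [map_sum, coeff_ev']
    by_cases hn : n ∈ T
    · rw [hq' n g, MvPolynomial.eval_eq', map_sum, Finset.sum_mul]
      refine Finset.sum_congr rfl fun α hα => ?_
      have hαd := hq n α hα
      have hαT : α.degree ∈ T := by rw [hαd]; exact hn
      rw [map_smul, mono', dif_pos hαT, ev'_mono, hαd, C_mul, smul_eq_C_mul, mul_assoc]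
      rfl
    · rw [co_gap hn, C_0, zero_mul]
      refine (Finset.sum_eq_zero fun α hα => ?_).symm
      have hαd := hq n α hα
      have hαT : α.degree ∉ T := by rw [hαd]; exact hn
      rw [map_smul, mono', dif_neg hαT, map_zero, smul_zero]
  rw [hF]
  exact Subalgebra.sum_mem _ fun n _ => Subalgebra.sum_mem _ fun α _ =>
    Subalgebra.smul_mem _ (hm' α) _

end Pool.Agent.Y85.NSI
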