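import Pool.Agent.Y85.NSI.Col

/-!
# Semi-invariant functions on `SL_n` are homogeneous polynomials in the first column
-/

set_option autoImplicit false

namespace Pool.Agent.Y85.NSI

universe u v

open Polynomial

variable {k : Type u} [Field k] {m : ℕ}

theorem poly_comp {σ τ : Type} (E : σ → (τ → k) → k)
    (hE : ∀ i, ∃ q : MvPolynomial τ k, ∀ y, E i y = MvPolynomial.eval y q)
    (Φ : MvPolynomial σ k) :
    ∃ q : MvPolynomial τ k, ∀ y, MvPolynomial.eval (fun i => E i y) Φ = MvPolynomial.eval y q := by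
  induction Φ using MvPolynomial.induction_on with
  | C r => exact ⟨MvPolynomial.C r, fun y => by simp⟩
  | add p q hp hq =>
    obtain ⟨P, hP⟩ := hp
    obtain ⟨Q, hQ⟩ := hq
    exact ⟨P + Q, fun y => by rw [map_add, map_add, hP, hQ]⟩
  | mul_X p i hp =>
    obtain ⟨P, hP⟩ := hp
    obtain ⟨Q, hQ⟩ := hE i
    exact ⟨P * Q, fun y => by rw [map_mul, map_mul, hP, MvPolynomial.eval_X, hQ]⟩

/-- a lower triangular matrix with given first column -/
def Lw (v : Fin (m + 2) → k) (s : k) : Matrix (Fin (m + 2)) (Fin (m + 2)) k :=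
  Matrix.of fun i j => if j = 0 then v i else if i = j then (if j = 1 then s else 1) else 0

theorem Lw_det (v : Fin (m + 2) → k) (s : k) : (Lw v s).det = v 0 * s := by
  have h1 : (Lw v s).IsLowerTriangular := by
    intro i j hij
    have hij' : i < j := hij
    have hj : j ≠ 0 := fun h => by rw [h] at hij'; exact absurd hij' (Fin.not_lt_zero _)
    change (if j = 0 then v i else if i = j then (if j = 1 then s else 1) else 0) = 0
    rw [if_neg hj, if_neg (ne_of_lt hij')]
  rw [Matrix.det_of_isLowerTriangular _ h1, Fin.prod_univ_succ, Fin.prod_univ_succ]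
  have h2 : Lw v s 0 0 = v 0 := rfl
  have h3 : Lw v s (Fin.succ 0) (Fin.succ 0) = s := by
    change (if (Fin.succ 0 : Fin (m + 2)) = 0 then v (Fin.succ 0) else
      if (Fin.succ 0 : Fin (m + 2)) = Fin.succ 0 then
        (if (Fin.succ 0 : Fin (m + 2)) = 1 then s else 1) else 0) = s
    rw [if_neg (Fin.succ_ne_zero _), if_pos rfl]
    exact if_pos rfl
  rw [h2, h3, Finset.prod_eq_one, mul_one]
  intro i _
  change (if (i.succ.succ : Fin (m + 2)) = 0 then v i.succ.succ else
    if (i.succ.succ : Fin (m + 2)) = i.succ.succ then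
      (if (i.succ.succ : Fin (m + 2)) = 1 then s else 1) else 0) = (1 : k)
  rw [if_neg (Fin.succ_ne_zero _), if_pos rfl]
  refine if_neg fun h => ?_
  have h4 : (i.succ.succ : Fin (m + 2)) = (0 : Fin (m + 1)).succ := h
  exact Fin.succ_ne_zero _ (Fin.succ_injective _ h4)

/-- a matrix of determinant one with given first column -/
def lw (v : Fin (m + 2) → k) (h : v 0 ≠ 0) : SL (m + 2) k :=
  ⟨Lw v (v 0)⁻¹, by rw [Lw_det, mul_inv_cancel₀ h]⟩

/-- a unipotent matrix -/
def lu (y : Fin (m + 2) → k) : SL (m + 2) k :=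
  ⟨Lw (Function.update y 0 1) 1, by rw [Lw_det, Function.update_self, mul_one]⟩

theorem lw_col (v : Fin (m + 2) → k) (h : v 0 ≠ 0) (i : Fin (m + 2)) : (lw v h).1 i 0 = v i := rfl

theorem lu_col (y : Fin (m + 2) → k) (i : Fin (m + 2)) :
    (lu y).1 i 0 = Function.update y 0 1 i := rfl

section

variable [Infinite k] (f : SL (m + 2) k → k)
  (hf : IsMorphism (fun g : SL (m + 2) k => inc (m + 2) k g) f) (n : ℕ)
  (hB : ∀ (g : SL (m + 2) k) (b : borel (m + 2) k), f (g * b) = b.1.1 0 0 ^ n * f g)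

include hf in
theorem exists_p : ∃ p : MvPolynomial (Fin (m + 2)) k, ∀ y, f (lu y) = MvPolynomial.eval y p := by
  obtain ⟨Φ, hΦ⟩ := hf
  obtain ⟨q, hq⟩ := poly_comp (σ := Fin (m + 2) × Fin (m + 2)) (τ := Fin (m + 2))
    (fun ij y => (lu (k := k) y).1 ij.1 ij.2) (by
      rintro ⟨i, j⟩
      by_cases hj : j = 0
      · subst hj
        by_cases hi : i = 0
        · subst hi
          exact ⟨1, fun y => by rw [map_one]; exact (lu_col y 0).trans (Function.update_self _ _ _)⟩
        · exact ⟨MvPolynomial.X i, fun y => by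
            rw [MvPolynomial.eval_X]
            exact (lu_col y i).trans (Function.update_of_ne hi _ _)⟩
      · refine ⟨MvPolynomial.C (if i = j then (if j = 1 then 1 else 1) else 0), fun y => ?_⟩
        rw [MvPolynomial.eval_C]
        exact if_neg hj) Φ
  exact ⟨q, fun y => (hΦ (lu y)).trans (hq y)⟩

include hf hB in
/-- scaling -/
theorem f_scale (g : SL (m + 2) k) (h0 : g.1 0 0 ≠ 0) :
    f g = g.1 0 0 ^ n * f (lu fun i => g.1 i 0 / g.1 0 0) := by
  let D : SL (m + 2) k := lw (Pi.single 0 (g.1 0 0)) (by rw [Pi.single_eq_same]; exact h0)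
  have hD : D ∈ borel (m + 2) k := by
    intro i j hij
    change (if j = 0 then (Pi.single 0 (g.1 0 0) : Fin (m + 2) → k) i else
      if i = j then _ else 0) = 0
    by_cases hj : j = 0
    · rw [if_pos hj, Pi.single_eq_of_ne]
      rintro rfl
      exact Fin.not_lt_zero _ hij
    · rw [if_neg hj, if_neg (ne_of_gt hij)]
  have hD0 : D.1 0 0 = g.1 0 0 := by
    change (Pi.single 0 (g.1 0 0) : Fin (m + 2) → k) 0 = _
    rw [Pi.single_eq_same]
  have h1 := hB (lu fun i => g.1 i 0 / g.1 0 0) ⟨D, hD⟩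
  have h2 : f g = f (lu (fun i => g.1 i 0 / g.1 0 0) * D) := by
    refine same_col f hf n hB _ _ fun i => ?_
    change g.1 i 0 = ((lu fun i => g.1 i 0 / g.1 0 0).1 * D.1) i 0
    rw [Matrix.mul_apply, Finset.sum_eq_single 0, hD0, lu_col]
    · by_cases hi : i = 0
      · rw [hi, Function.update_self, one_mul]
      · rw [Function.update_of_ne hi, div_mul_cancel₀ _ h0]
    · intro j _ hj
      have h3 : D.1 j 0 = 0 := by
        change (Pi.single 0 (g.1 0 0) : Fin (m + 2) → k) j = 0
        rw [Pi.single_eq_of_ne hj]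
      rw [h3, mul_zero]
    · intro h
      exact absurd (Finset.mem_univ _) h
  rw [h2]
  refine h1.trans ?_
  change D.1 0 0 ^ n * _ = _
  rw [hD0]

/-- a lower triangular matrix with given second column -/
def G1 (y : Fin (m + 2) → k) (s : k) : Matrix (Fin (m + 2)) (Fin (m + 2)) k :=
  Matrix.of fun i j => if j = 0 then (if i = 0 then s else 0) else
    if j = 1 then (if i = 0 then 0 else y i) else if i = j then 1 else 0

omit [Infinite k] in
theorem G1_0 (y : Fin (m + 2) → k) (s : k) (i : Fin (m + 2)) :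
    G1 y s i 0 = if i = 0 then s else 0 := rfl

omit [Infinite k] in
theorem G1_1 (y : Fin (m + 2) → k) (s : k) (i : Fin (m + 2)) :
    G1 y s i 1 = if i = 0 then 0 else y i := by
  change (if (1 : Fin (m + 2)) = 0 then (if i = 0 then s else 0) else
    if (1 : Fin (m + 2)) = 1 then (if i = 0 then 0 else y i) else if i = 1 then 1 else 0) = _
  rw [if_neg one_ne_zero, if_pos rfl]

omit [Infinite k] in
theorem G1_det (y : Fin (m + 2) → k) (s : k) : (G1 y s).det = s * y 1 := by
  have h1 : (G1 y s).IsLowerTriangular := by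
    intro i j hij
    have hij' : i < j := hij
    have hj : j ≠ 0 := fun h => by rw [h] at hij'; exact absurd hij' (Fin.not_lt_zero _)
    change (if j = 0 then (if i = 0 then s else 0) else
      if j = 1 then (if i = 0 then 0 else y i) else if i = j then 1 else 0) = 0
    rw [if_neg hj, if_neg (ne_of_lt hij')]
    by_cases hj1 : j = 1
    · rw [if_pos hj1, if_pos]
      rw [hj1] at hij'
      exact Fin.lt_one_iff _ |>.1 hij'
    · rw [if_neg hj1]
  rw [Matrix.det_of_isLowerTriangular _ h1, Fin.prod_univ_succ, Fin.prod_univ_succ]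
  have h2 : G1 y s 0 0 = s := rfl
  have h3 : G1 y s (Fin.succ 0) (Fin.succ 0) = y 1 := by
    change (if (Fin.succ 0 : Fin (m + 2)) = 0 then (if (Fin.succ 0 : Fin (m + 2)) = 0 then s else 0)
      else if (Fin.succ 0 : Fin (m + 2)) = 1 then
        (if (Fin.succ 0 : Fin (m + 2)) = 0 then 0 else y (Fin.succ 0)) else
        if (Fin.succ 0 : Fin (m + 2)) = Fin.succ 0 then 1 else 0) = y 1
    rw [if_neg (Fin.succ_ne_zero _), if_pos rfl, if_neg (Fin.succ_ne_zero _)]
    rfl
  rw [h2, h3, Finset.prod_eq_one, mul_one]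
  intro i _
  change (if (i.succ.succ : Fin (m + 2)) = 0 then
    (if (i.succ.succ : Fin (m + 2)) = 0 then s else 0) else
      if (i.succ.succ : Fin (m + 2)) = 1 then
        (if (i.succ.succ : Fin (m + 2)) = 0 then 0 else y i.succ.succ) else
        if (i.succ.succ : Fin (m + 2)) = i.succ.succ then 1 else 0) = (1 : k)
  rw [if_neg (Fin.succ_ne_zero _), if_neg, if_pos rfl]
  intro h
  have h4 : (i.succ.succ : Fin (m + 2)) = (0 : Fin (m + 1)).succ := h
  exact Fin.succ_ne_zero _ (Fin.succ_injective _ h4)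

/-- a matrix of determinant one with given second column -/
def g1 (y : Fin (m + 2) → k) (h : y 1 ≠ 0) : SL (m + 2) k :=
  ⟨G1 y (y 1)⁻¹, by rw [G1_det, inv_mul_cancel₀ h]⟩

include hf in
omit [Infinite k] in
theorem exists_PQ (g : SL (m + 2) k) (i j : Fin (m + 2)) (hij : i ≠ j) : ∃ P Q : k[X],
    (∀ z, f (g * phi i j hij (Pool.Agent.H957R3.Ind.lo z)) = P.eval z) ∧
    ∀ z, f (g * phi i j hij (Pool.Agent.H957R3.Ind.hi z)) = Q.eval z := by
  obtain ⟨Φ, hΦ⟩ := hf
  have hF : IsMorphism (R := k) (fun h : SL 2 k => (h.1 : Matrix (Fin 2) (Fin 2) k))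
      (fun h : SL 2 k => f (g * phi i j hij h)) := by
    have h1 := mor_comp (ι := fun h : SL 2 k => (h.1 : Matrix (Fin 2) (Fin 2) k))
      (γ := fun h : SL 2 k => g.1 * ee i j h.1) (fun a b => ?_) Φ
    · obtain ⟨Ψ, hΨ⟩ := h1
      exact ⟨Ψ, fun s => by rw [← hΨ]; exact hΦ (g * phi i j hij s)⟩
    · simp only [Matrix.mul_apply]
      refine mor_sum _ fun c => mor_mul (mor_const _) ?_
      simp only [ee, Matrix.add_apply, Matrix.mul_apply, sub_eq_add_neg]
      refine mor_add (mor_const _) (mor_sum _ fun q => mor_mul (mor_sum _ fun p => mor_mul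
        (mor_const _) (mor_add (mor_entry p q) (mor_const _))) (mor_const _))
  obtain ⟨Ψ, hΨ⟩ := hF
  obtain ⟨P, hP⟩ := Pool.Agent.H957R3.Ind.curve (R := k) LinearMap.id
    (fun z => (Pool.Agent.H957R3.Ind.lo z).1)
    (fun ij => !![1, 0; X, 1] ij.1 ij.2) (by
      rintro z ⟨a, b⟩
      fin_cases a <;> fin_cases b <;> simp [Pool.Agent.H957R3.Ind.lo, Pool.Agent.H957R3.Ind.mk4]) Ψ
  obtain ⟨Q, hQ⟩ := Pool.Agent.H957R3.Ind.curve (R := k) LinearMap.id
    (fun z => (Pool.Agent.H957R3.Ind.hi z).1)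
    (fun ij => !![X, -1; 1, 0] ij.1 ij.2) (by
      rintro z ⟨a, b⟩
      fin_cases a <;> fin_cases b <;> simp [Pool.Agent.H957R3.Ind.hi, Pool.Agent.H957R3.Ind.mk4]) Ψ
  exact ⟨P, Q, fun z => by rw [← hP]; exact hΨ _, fun z => by rw [← hQ]; exact hΨ _⟩

/-- the restriction of a polynomial to a line through the origin -/
noncomputable def lin (p : MvPolynomial (Fin (m + 2)) k) (y : Fin (m + 2) → k) : k[X] :=
  MvPolynomial.eval₂ C (fun i => C (y i) * X) p

theorem lin_eval (p : MvPolynomial (Fin (m + 2)) k) (y : Fin (m + 2) → k) (z : k) :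
    (lin p y).eval z = MvPolynomial.eval (fun i => y i * z) p := by
  rw [lin]
  induction p using MvPolynomial.induction_on with
  | C r => simp
  | add p q hp hq => rw [MvPolynomial.eval₂_add, eval_add, hp, hq, map_add]
  | mul_X p i hp =>
    rw [MvPolynomial.eval₂_mul, MvPolynomial.eval₂_X, eval_mul, hp, map_mul, MvPolynomial.eval_X,
      eval_mul, eval_C, eval_X]

theorem lin_coeff (p : MvPolynomial (Fin (m + 2)) k) (y : Fin (m + 2) → k) (j : ℕ) :
    (lin p y).coeff j = MvPolynomial.eval y (MvPolynomial.homogeneousComponent j p) := by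
  rw [lin, MvPolynomial.homogeneousComponent_apply, MvPolynomial.eval₂_eq', finsetSum_coeff,
    map_sum, Finset.sum_filter]
  refine Finset.sum_congr rfl fun d _ => ?_
  have h1 : (∏ i, (C (y i) * X : k[X]) ^ d i) = C (∏ i, y i ^ d i) * X ^ d.degree := by
    simp only [mul_pow, Finset.prod_mul_distrib, map_prod, map_pow]
    congr 1
    rw [Finset.prod_pow_eq_pow_sum, Finsupp.degree_eq_sum]
  rw [h1, ← mul_assoc, ← C_mul, coeff_C_mul, coeff_X_pow, MvPolynomial.eval_monomial,
    Finsupp.prod_fintype _ _ (fun i => pow_zero _)]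
  by_cases h : d.degree = j
  · rw [if_pos h, if_pos h.symm, mul_one]
  · rw [if_neg h, if_neg (fun e => h e.symm), mul_zero]

include hf hB in
/-- the degree bound -/
theorem deg_bound (p : MvPolynomial (Fin (m + 2)) k) (hp : ∀ y, f (lu y) = MvPolynomial.eval y p)
    (j : ℕ) (hj : n < j) : MvPolynomial.homogeneousComponent j p = 0 := by
  have h10 : (1 : Fin (m + 2)) ≠ 0 := one_ne_zero
  have key : ∀ y : Fin (m + 2) → k, y 1 ≠ 0 →
      MvPolynomial.eval y (MvPolynomial.homogeneousComponent j p) = 0 := by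
    intro y hy
    have h01 : (0 : Fin (m + 2)) ≠ 1 := Ne.symm h10
    have hlt : (0 : Fin (m + 2)) < 1 := Fin.pos_of_ne_zero h10
    obtain ⟨P, Q, hP, hQ⟩ := exists_PQ f hf (g1 y hy) 0 1 h01
    obtain ⟨hdeg, -⟩ := Pool.Agent.H957R3.Ind.key n (fun h => f (g1 y hy * phi 0 1 h01 h)) P Q
      hP hQ (fun h b => by
        rw [phi_mul, ← mul_assoc]
        have h4 := hB (g1 y hy * phi 0 1 h01 h) ⟨phi 0 1 h01 b.1, phi_mem 0 1 hlt b.1 b.2⟩
        refine h4.trans ?_
        have h5 : (phi (n := m + 2) 0 1 h01 b.1).1 0 0 = b.1.1 0 0 := by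
          change ee 0 1 b.1.1 0 0 = b.1.1 0 0
          rw [ee_apply, if_pos rfl, if_pos rfl, if_pos rfl, if_neg h01, if_neg h01]
          ring
        change (phi (n := m + 2) 0 1 h01 b.1).1 0 0 ^ n * _ = _
        rw [h5])
    have hcol : ∀ (z : k) (i : Fin (m + 2)),
        (g1 y hy * phi 0 1 h01 (Pool.Agent.H957R3.Ind.lo z)).1 i 0 =
          if i = 0 then (y 1)⁻¹ else z * y i := by
      intro z i
      change ((g1 y hy).1 * (phi 0 1 h01 (Pool.Agent.H957R3.Ind.lo z)).1) i 0 = _
      rw [phi_lo, Matrix.mul_transvection_apply_same]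
      change G1 y (y 1)⁻¹ i 0 + z * G1 y (y 1)⁻¹ i 1 = _
      rw [G1_0, G1_1]
      by_cases hi : i = 0
      · rw [if_pos hi, if_pos hi, if_pos hi, mul_zero, add_zero]
      · rw [if_neg hi, if_neg hi, if_neg hi, zero_add]
    have hval : ∀ z, P.eval z = (y 1)⁻¹ ^ n * (lin p y).eval (y 1 * z) := by
      intro z
      have h0 := hcol z 0
      rw [if_pos rfl] at h0
      rw [← hP, f_scale f hf n hB _ (by rw [h0]; exact inv_ne_zero hy), h0, lin_eval, ← hp]
      congr 2
      refine Subtype.ext ?_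
      change Lw _ 1 = Lw _ 1
      congr 1
      funext i
      by_cases hi : i = 0
      · rw [hi, Function.update_self, Function.update_self]
      · rw [Function.update_of_ne hi, Function.update_of_ne hi, hcol, if_neg hi, div_inv_eq_mul]
        ring
    have hpoly : C ((y 1)⁻¹ ^ n) * (lin p y).comp (C (y 1) * X) = P := by
      refine Polynomial.funext fun z => ?_
      rw [hval z, eval_mul, eval_C, eval_comp, eval_mul, eval_C, eval_X]
    have hco := congrArg (fun q : k[X] => q.coeff j) hpoly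
    beta_reduce at hco
    rw [coeff_C_mul, comp_C_mul_X_coeff, coeff_eq_zero_of_natDegree_lt (lt_of_le_of_lt hdeg hj),
      lin_coeff] at hco
    have h7 := (mul_eq_zero.1 hco).resolve_left (pow_ne_zero _ (inv_ne_zero hy))
    exact (mul_eq_zero.1 h7).resolve_right (pow_ne_zero _ hy)
  have h1 : MvPolynomial.homogeneousComponent j p * MvPolynomial.X 1 = 0 := by
    refine MvPolynomial.funext fun y => ?_
    rw [map_mul, MvPolynomial.eval_X, map_zero]
    by_cases hy : y 1 = 0
    · rw [hy, mul_zero]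
    · rw [key y hy, zero_mul]
  exact (mul_eq_zero.1 h1).resolve_right (MvPolynomial.X_ne_zero _)

include hf hB in
/-- semi-invariant functions are homogeneous polynomials in the first column -/
theorem form : ∃ q : MvPolynomial (Fin (m + 2)) k, (∀ d ∈ q.support, d.degree = n) ∧
    ∀ g : SL (m + 2) k, f g = MvPolynomial.eval (fun i => g.1 i 0) q := by
  obtain ⟨p, hp⟩ := exists_p f hf
  have hdeg : ∀ d ∈ p.support, d.degree ≤ n := by
    intro d hd
    by_contra h
    have h1 := deg_bound f hf n hB p hp d.degree (not_le.1 h)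
    have h2 := congrArg (MvPolynomial.coeff d) h1
    rw [MvPolynomial.coeff_homogeneousComponent, if_pos rfl, MvPolynomial.coeff_zero] at h2
    exact (MvPolynomial.mem_support_iff.1 hd) h2
  let q : MvPolynomial (Fin (m + 2)) k := ∑ d ∈ p.support,
    MvPolynomial.monomial (d + Finsupp.single 0 (n - d.degree)) (MvPolynomial.coeff d p)
  have hq : ∀ v : Fin (m + 2) → k, MvPolynomial.eval v q = ∑ d ∈ p.support,
      MvPolynomial.coeff d p * ((∏ i, v i ^ d i) * v 0 ^ (n - d.degree)) := by
    intro v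
    rw [map_sum]
    refine Finset.sum_congr rfl fun d _ => ?_
    rw [MvPolynomial.eval_monomial, Finsupp.prod_fintype _ _ (fun i => pow_zero _)]
    congr 1
    simp only [Finsupp.add_apply, pow_add, Finset.prod_mul_distrib]
    congr 1
    rw [Finset.prod_eq_single 0, Finsupp.single_eq_same]
    · intro i _ hi
      rw [Finsupp.single_eq_of_ne hi, pow_zero]
    · intro h
      exact absurd (Finset.mem_univ _) h
  refine ⟨q, ?_, ?_⟩
  · intro d hd
    have h1 : q ∈ MvPolynomial.homogeneousSubmodule (Fin (m + 2)) k n := by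
      refine Submodule.sum_mem _ fun d hd => ?_
      rw [MvPolynomial.mem_homogeneousSubmodule]
      refine MvPolynomial.isHomogeneous_monomial _ ?_
      rw [map_add, Finsupp.degree_single]
      have := hdeg d hd
      omega
    by_contra h
    have h2 := (MvPolynomial.mem_homogeneousSubmodule _ _).1 h1
    exact h (h2.degree_eq_sum_deg_support hd).symm
  · have hne : ∀ g : SL (m + 2) k, g.1 0 0 ≠ 0 →
        f g = MvPolynomial.eval (fun i => g.1 i 0) q := by
      intro g h0
      rw [f_scale f hf n hB g h0, hp, hq, MvPolynomial.eval_eq', Finset.mul_sum]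
      refine Finset.sum_congr rfl fun d hd => ?_
      have h3 : (∏ i, (g.1 i 0 / g.1 0 0) ^ d i) = (∏ i, g.1 i 0 ^ d i) / g.1 0 0 ^ d.degree := by
        simp only [div_pow, Finset.prod_div_distrib]
        rw [Finset.prod_pow_eq_pow_sum, Finsupp.degree_eq_sum]
      have h4 : g.1 0 0 ^ n = g.1 0 0 ^ (n - d.degree) * g.1 0 0 ^ d.degree := by
        rw [← pow_add]
        congr 1
        have := hdeg d hd
        omega
      rw [h3, h4]
      have h5 : g.1 0 0 ^ d.degree ≠ 0 := pow_ne_zero _ h0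
      field_simp
    have h6 : IsMorphism (fun g : SL (m + 2) k => inc (m + 2) k g)
        (fun g => f g + (-1) * MvPolynomial.eval (fun i => g.1 i 0) q) := by
      refine mor_add hf (mor_mul (mor_const _) ?_)
      obtain ⟨Ψ, hΨ⟩ := poly_comp (σ := Fin (m + 2)) (τ := Fin (m + 2) × Fin (m + 2))
        (fun i y => y (i, 0)) (fun i => ⟨MvPolynomial.X (i, 0), fun y => by simp⟩) q
      exact ⟨Ψ, fun g => hΨ (fun ij => (inc (m + 2) k g) ij.1 ij.2)⟩
    rcases sl_irr 0 _ _ h6 (mor_entry 0 0) (fun g => by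
      by_cases h0 : g.1 0 0 = 0
      · exact mul_eq_zero_of_right _ h0
      · refine mul_eq_zero_of_left ?_ _
        rw [hne g h0]
        ring) with h | h
    · intro g
      have := h g
      linear_combination this
    · exact absurd (h 1) (by
        change (1 : Matrix (Fin (m + 2)) (Fin (m + 2)) k) 0 0 ≠ 0
        rw [Matrix.one_apply_eq]
        exact one_ne_zero)

end

end Pool.Agent.Y85.NSI
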