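import Mathlib
import Pool.Agent.H957R3.CM

/-!
# A criterion for depth at most one
-/

set_option autoImplicit false

namespace Pool.Agent.Y85.NSI

universe u

open IsLocalRing

section

variable {D : Type u} [CommRing D] [IsDomain D] (M : Ideal D) [M.IsPrime] (mul : D → D)

/-- Every regular sequence in the maximal ideal of the localization at `M` has length at most one,
if there is a multiplication `mul` by an element outside the ring. -/
theorem length_le_one (h1 : ∀ F ∈ M, ∀ H ∈ M, H * mul F = F * mul H)
    (h2 : ∀ F ∈ M, F ≠ 0 → ∀ s c, s * mul F = F * c → s ∈ M)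
    (rs : List (Localization.AtPrime M))
    (hrs : ∀ r ∈ rs, r ∈ maximalIdeal (Localization.AtPrime M))
    (hreg : RingTheory.Sequence.IsRegular (Localization.AtPrime M) rs) : rs.length ≤ 1 := by
  match rs, hrs, hreg with
  | [], _, _ => simp
  | [_], _, _ => simp
  | x :: y :: l, hrs, hreg =>
    exfalso
    rw [RingTheory.Sequence.isRegular_cons_iff, RingTheory.Sequence.isRegular_cons_iff] at hreg
    obtain ⟨hx, hy, -⟩ := hreg
    have hxm := hrs x (by simp)
    have hym := hrs y (by simp)
    obtain ⟨a, s, rfl⟩ := IsLocalization.exists_mk'_eq M.primeCompl x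
    obtain ⟨b, t, rfl⟩ := IsLocalization.exists_mk'_eq M.primeCompl y
    have ha : a ∈ M := (IsLocalization.AtPrime.mk'_mem_maximal_iff _ M a s).1 hxm
    have hb : b ∈ M := (IsLocalization.AtPrime.mk'_mem_maximal_iff _ M b t).1 hym
    have ha0 : a ≠ 0 := by
      intro h
      have h3 : IsLocalization.mk' (Localization.AtPrime M) a s = 0 := by
        rw [h, IsLocalization.mk'_zero]
      rw [h3] at hx
      have h4 : (0 : Localization.AtPrime M) • (1 : Localization.AtPrime M) =
          (0 : Localization.AtPrime M) • (0 : Localization.AtPrime M) := by simp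
      exact one_ne_zero (hx h4)
    have key1 : IsLocalization.mk' (Localization.AtPrime M) b t *
        algebraMap D _ (mul a) =
        IsLocalization.mk' (Localization.AtPrime M) a s *
          (algebraMap D _ (s : D) * IsLocalization.mk' (Localization.AtPrime M) (mul b) t) := by
      rw [← mul_assoc, IsLocalization.mk'_spec]
      rw [← IsLocalization.mk'_one (M := M.primeCompl) (Localization.AtPrime M) (mul a),
        ← IsLocalization.mk'_one (M := M.primeCompl) (Localization.AtPrime M) a,
        ← IsLocalization.mk'_mul, ← IsLocalization.mk'_mul, h1 a ha b hb, mul_one, one_mul]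
    have key2 : ∀ w, algebraMap D _ (mul a) ≠
        IsLocalization.mk' (Localization.AtPrime M) a s * w := by
      intro w hw
      obtain ⟨c, t', rfl⟩ := IsLocalization.exists_mk'_eq M.primeCompl w
      rw [← IsLocalization.mk'_mul] at hw
      have h5 : algebraMap D (Localization.AtPrime M) (mul a * (s * t' : M.primeCompl)) =
          algebraMap D (Localization.AtPrime M) (a * c) := by
        rw [map_mul, hw, IsLocalization.mk'_spec]
      have h6 : mul a * (s * t' : M.primeCompl) = a * c :=
        IsLocalization.injective (Localization.AtPrime M) M.primeCompl_le_nonZeroDivisors h5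
      have h7 := h2 a ha ha0 ((s * t' : M.primeCompl) : D) c (by rw [mul_comm]; exact h6)
      exact (s * t' : M.primeCompl).2 h7
    have h3 : IsLocalization.mk' (Localization.AtPrime M) b t •
        (Submodule.Quotient.mk (algebraMap D _ (mul a)) :
          QuotSMulTop (IsLocalization.mk' (Localization.AtPrime M) a s)
            (Localization.AtPrime M)) =
        IsLocalization.mk' (Localization.AtPrime M) b t • 0 := by
      rw [smul_zero, ← Submodule.Quotient.mk_smul, smul_eq_mul, key1,
        Submodule.Quotient.mk_eq_zero]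
      exact Submodule.smul_mem_pointwise_smul _ _ _ trivial
    have h4 := hy h3
    rw [Submodule.Quotient.mk_eq_zero] at h4
    obtain ⟨w, -, hw⟩ := (Submodule.mem_smul_pointwise_iff_exists _ _ _).1 h4
    exact key2 w hw.symm

/-- a chain of prime ideals of length two gives dimension at least two -/
theorem two_le_dim (P : Ideal D) [P.IsPrime] (h0 : P ≠ ⊥) (h : P < M) :
    2 ≤ ringKrullDim (Localization.AtPrime M) := by
  rw [IsLocalization.AtPrime.ringKrullDim_eq_height M]
  have hb : (⊥ : Ideal D).IsPrime := Ideal.isPrime_bot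
  have h1 : P.height + 1 ≤ M.height := Ideal.height_add_one_le_of_lt_of_isPrime h
  have h2 : (⊥ : Ideal D).height + 1 ≤ P.height :=
    Ideal.height_add_one_le_of_lt_of_isPrime (bot_lt_iff_ne_bot.2 h0)
  have h3 : (2 : ℕ∞) ≤ M.height := by
    calc (2 : ℕ∞) = 0 + 1 + 1 := by norm_num
      _ ≤ (⊥ : Ideal D).height + 1 + 1 := by gcongr; exact bot_le
      _ ≤ P.height + 1 := by gcongr
      _ ≤ M.height := h1
  exact WithBot.coe_le_coe.2 h3

omit [IsDomain D] in
theorem not_cm_of (h1 : 2 ≤ ringKrullDim (Localization.AtPrime M))
    (h2 : ∀ rs : List (Localization.AtPrime M),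
      (∀ r ∈ rs, r ∈ maximalIdeal (Localization.AtPrime M)) →
      RingTheory.Sequence.IsRegular (Localization.AtPrime M) rs → rs.length ≤ 1) :
    ¬ Pool.Agent.H957R3.CM.IsCohenMacaulayRing D := by
  intro h
  obtain ⟨-, rs, h3, h4, h5⟩ := h.2 M
  have h6 := h2 rs h3 h4
  rw [← h5] at h1
  have h8 : (2 : ℕ) ≤ rs.length := by exact_mod_cast h1
  omega

end

end Pool.Agent.Y85.NSI
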