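import Pool.Agent.Y85.NSI.Defs
import Pool.Agent.Y85.NSI.Loc

/-!
# The general theorem: induction of numerical semigroup rings
-/

set_option autoImplicit false

namespace Pool.Agent.Y85.NSI

universe u v

open Polynomial IsLocalRing

variable {k : Type u} [Field k] {N : ℕ} {Γ : Type u} [Group Γ]

section

variable {ι : Γ →* Matrix (Fin N) (Fin N) k} {B : Subgroup Γ} {χ : B →* k}

/-- two suitable functions and a point -/
theorem Hyp.pair (H : Hyp ι B χ) : ∃ (a c : Γ → k) (g₀ g₁ : Γ),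
    IsMorphism (fun g : Γ => ι g) a ∧ IsMorphism (fun g : Γ => ι g) c ∧
    (∀ (g : Γ) (b : B), a (g * b) = χ b⁻¹ * a g) ∧ (∀ (g : Γ) (b : B), c (g * b) = χ b⁻¹ * c g) ∧
    a g₀ ≠ 0 ∧ c g₀ = 0 ∧ c g₁ ≠ 0 := by
  obtain ⟨f, h, hf, hh, hfe, hhe, hl⟩ := H.two
  rw [LinearIndependent.pair_iff] at hl
  have h0 : ∃ g₀, f g₀ ≠ 0 := by
    by_contra hcon
    push Not at hcon
    have := (hl 1 0 (by
      funext g
      simp [hcon g])).1
    exact one_ne_zero this
  obtain ⟨g₀, hg₀⟩ := h0
  have h1 : ∃ g₁, h g₁ - h g₀ / f g₀ * f g₁ ≠ 0 := by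
    by_contra hcon
    push Not at hcon
    have := (hl (-(h g₀ / f g₀)) 1 (by
      funext g
      have := hcon g
      simp only [Pi.add_apply, Pi.smul_apply, smul_eq_mul, Pi.zero_apply]
      linear_combination this)).2
    exact one_ne_zero this
  obtain ⟨g₁, hg₁⟩ := h1
  refine ⟨f, fun g => h g - h g₀ / f g₀ * f g, g₀, g₁, hf, ?_, hfe, ?_, hg₀, ?_, hg₁⟩
  · have := mor_add hh (mor_mul (mor_const (-(h g₀ / f g₀))) hf)
    have e : (fun g => h g - h g₀ / f g₀ * f g) = fun g => h g + -(h g₀ / f g₀) * f g := by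
      funext g; ring
    rw [e]
    exact this
  · intro g b
    beta_reduce
    rw [hfe, hhe]
    ring
  · beta_reduce
    rw [div_mul_cancel₀ _ hg₀, sub_self]

variable (H : Hyp ι B χ)

/-- the induced algebra -/
def II (ι : Γ →* Matrix (Fin N) (Fin N) k) (B : Subgroup Γ) (χ : B →* k)
    (hχ : IsMorphism (fun b : B => ι b) (fun b => χ b)) (T : AddSubmonoid ℕ) : Type u :=
  ind (alg ι B χ hχ T)

noncomputable instance instII (ι : Γ →* Matrix (Fin N) (Fin N) k) (B : Subgroup Γ) (χ : B →* k)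
    (hχ : IsMorphism (fun b : B => ι b) (fun b => χ b)) (T : AddSubmonoid ℕ) :
    CommRing (II ι B χ hχ T) :=
  inferInstanceAs (CommRing (ind (alg ι B χ hχ T)))

noncomputable instance instAlgII (ι : Γ →* Matrix (Fin N) (Fin N) k) (B : Subgroup Γ) (χ : B →* k)
    (hχ : IsMorphism (fun b : B => ι b) (fun b => χ b)) (T : AddSubmonoid ℕ) :
    Algebra k (II ι B χ hχ T) :=
  inferInstanceAs (Algebra k (ind (alg ι B χ hχ T)))

variable {hχ : IsMorphism (fun b : B => ι b) (fun b => χ b)} {T : AddSubmonoid ℕ}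

/-- the coefficient functions of an element of the induced algebra -/
noncomputable def co (F : II ι B χ hχ T) (n : ℕ) (g : Γ) : k := cf n (F.1 g)

theorem co_mor (F : II ι B χ hχ T) (n : ℕ) : IsMorphism (fun g : Γ => ι g) (co F n) :=
  mor_lin (cf n) F.2.1

theorem co_bd (F : II ι B χ hχ T) : ∃ d, ∀ n, d < n → ∀ g, co F n g = 0 := by
  obtain ⟨Φ, hΦ⟩ := F.2.1
  obtain ⟨d, hd⟩ := mor_bound (Φ := Φ) (fun n => cf n) cf_bd
  refine ⟨d, fun n hn g => ?_⟩
  rw [co, hΦ]
  exact hd (fun ij => ι g ij.1 ij.2) n hn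

theorem co_eq (F : II ι B χ hχ T) (n : ℕ) (g : Γ) (b : B) :
    co F n (g * b) = χ b⁻¹ ^ n * co F n g := by
  have h : F.1 (g * b) = act0 (χ b⁻¹) (F.1 g) := F.2.2 g b
  rw [co, h, cf_act0]
  rfl

theorem co_gap {n : ℕ} (hn : n ∉ T) (F : II ι B χ hχ T) (g : Γ) : co F n g = 0 := cf_gap hn _

theorem II_ext {F F' : II ι B χ hχ T} (h : ∀ n g, co F n g = co F' n g) : F = F' :=
  Subtype.ext (funext fun g => nsr_ext fun n => h n g)

/-- construction of elements of the induced algebra -/
noncomputable def mk (c : ℕ → Γ → k) (d : ℕ) (h1 : ∀ n, n ∉ T → ∀ g, c n g = 0)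
    (hd : ∀ n, d < n → ∀ g, c n g = 0) (hm : ∀ n, IsMorphism (fun g : Γ => ι g) (c n))
    (he : ∀ n (g : Γ) (b : B), c n (g * b) = χ b⁻¹ ^ n * c n g) : II ι B χ hχ T :=
  ⟨fun g => ∑ n ∈ Finset.range (d + 1), c n g • (xm n : nsr k T), mor_of_cf c d hm, fun g b => by
    refine nsr_ext fun m => ?_
    change cf m (∑ n ∈ Finset.range (d + 1), c n (g * b) • (xm n : nsr k T)) =
      cf m (act0 (χ b⁻¹) (∑ n ∈ Finset.range (d + 1), c n g • (xm n : nsr k T)))
    rw [cf_act0, cf_sum m d (fun n => c n (g * b)) (fun n hn => h1 n hn _) (fun n hn => hd n hn _),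
      cf_sum m d (fun n => c n g) (fun n hn => h1 n hn _) (fun n hn => hd n hn _), he]⟩

theorem co_mk (c : ℕ → Γ → k) (d : ℕ) (h1 : ∀ n, n ∉ T → ∀ g, c n g = 0)
    (hd : ∀ n, d < n → ∀ g, c n g = 0) (hm : ∀ n, IsMorphism (fun g : Γ => ι g) (c n))
    (he : ∀ n (g : Γ) (b : B), c n (g * b) = χ b⁻¹ ^ n * c n g) (n : ℕ) (g : Γ) :
    co (mk (hχ := hχ) c d h1 hd hm he) n g = c n g :=
  cf_sum n d (fun n => c n g) (fun n hn => h1 n hn _) (fun n hn => hd n hn _)

/-- the polynomial at a point -/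
noncomputable def ev (g : Γ) : II ι B χ hχ T →ₐ[k] nsr k T :=
  (Pi.evalAlgHom k (fun _ : Γ => nsr k T) g).comp (Subalgebra.val (ind (alg ι B χ hχ T)))

theorem ev_apply (g : Γ) (F : II ι B χ hχ T) : ev g F = F.1 g := rfl

/-- the polynomial at a point -/
noncomputable def ev' (g : Γ) : II ι B χ hχ T →ₐ[k] k[X] := (nsr k T).val.comp (ev g)

theorem coeff_ev' (g : Γ) (F : II ι B χ hχ T) (n : ℕ) : (ev' g F).coeff n = co F n g := rfl

theorem II_ext' {F F' : II ι B χ hχ T} (h : ∀ g, ev' g F = ev' g F') : F = F' :=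
  II_ext fun n g => by rw [← coeff_ev', ← coeff_ev', h]

/-- the constant term -/
noncomputable def ε : II ι B χ hχ T →ₐ[k] k :=
  (Polynomial.aeval (0 : k)).comp (ev' 1)

theorem ε_apply (F : II ι B χ hχ T) : ε F = co F 0 1 := by
  change Polynomial.aeval (0 : k) (ev' 1 F) = _
  rw [← coeff_ev', Polynomial.coeff_zero_eq_aeval_zero]

include H in
theorem co_zero (F : II ι B χ hχ T) (g : Γ) : co F 0 g = co F 0 1 :=
  H.const _ (co_mor F 0) (fun g b => by rw [co_eq, pow_zero, one_mul]) g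

include H in
/-- nonvanishing at a common point -/
theorem common {F : II ι B χ hχ T} (hF : F ≠ 0) {a : Γ → k} (ha : IsMorphism (fun g : Γ => ι g) a)
    {g₀ : Γ} (ha0 : a g₀ ≠ 0) : ∃ g, ev' g F ≠ 0 ∧ a g ≠ 0 := by
  have h1 : ∃ n g, co F n g ≠ 0 := by
    by_contra hcon
    push Not at hcon
    exact hF (II_ext fun n g => by rw [hcon]; exact (map_zero (cf n)).symm)
  obtain ⟨n, g₁, hn⟩ := h1
  by_contra hcon
  push Not at hcon
  rcases H.irr (co F n) a (co_mor F n) ha (fun g => by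
    by_cases h : ev' g F = 0
    · rw [← coeff_ev', h, coeff_zero, zero_mul]
    · rw [hcon g h, mul_zero]) with h | h
  · exact hn (h g₁)
  · exact ha0 (h g₀)

include H in
theorem II_domain : IsDomain (II ι B χ hχ T) := by
  have : NoZeroDivisors (II ι B χ hχ T) := ⟨fun {F F'} h => by
    by_contra hcon
    push Not at hcon
    have h1 : ∃ n g, co F' n g ≠ 0 := by
      by_contra hc
      push Not at hc
      exact hcon.2 (II_ext fun n g => by rw [hc]; exact (map_zero (cf n)).symm)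
    obtain ⟨n, g₁, hn⟩ := h1
    obtain ⟨g, hg, hg'⟩ := common H hcon.1 (co_mor F' n) hn
    have h2 : ev' g F * ev' g F' = 0 := by rw [← map_mul, h, map_zero]
    rcases mul_eq_zero.1 h2 with h3 | h3
    · exact hg h3
    · exact hg' (by rw [← coeff_ev', h3, coeff_zero])⟩
  have : Nontrivial (II ι B χ hχ T) := ⟨0, 1, fun h => by
    have h1 := congrArg (ε (ι := ι) (B := B) (χ := χ) (hχ := hχ) (T := T)) h
    rw [map_zero, map_one] at h1
    exact zero_ne_one h1⟩
  exact NoZeroDivisors.to_isDomain _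

/-- multiplication by `(a t) ^ e`, where `e` is the largest gap -/
noncomputable def mulA (e : ℕ) (hT : ∀ n, e < n → n ∈ T) (a : Γ → k)
    (ha : IsMorphism (fun g : Γ => ι g) a)
    (hae : ∀ (g : Γ) (b : B), a (g * b) = χ b⁻¹ * a g) (F : II ι B χ hχ T) : II ι B χ hχ T :=
  mk (fun n g => if e < n then a g ^ e * co F (n - e) g else 0) ((co_bd F).choose + e)
    (fun n hn g => if_neg fun h => hn (hT n h))
    (fun n hn g => by
      have h := (co_bd F).choose_spec (n - e) (by omega) g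
      rw [h, mul_zero, ite_self])
    (fun n => by
      by_cases h : e < n
      · simp only [if_pos h]
        exact mor_mul (mor_pow ha e) (co_mor F (n - e))
      · simp only [if_neg h]
        exact mor_const 0)
    (fun n g b => by
      by_cases h : e < n
      · simp only [if_pos h]
        rw [hae, co_eq]
        have h1 : χ b⁻¹ ^ n = χ b⁻¹ ^ e * χ b⁻¹ ^ (n - e) := by
          rw [← pow_add]
          congr 1
          omega
        rw [h1]
        ring
      · simp only [if_neg h, mul_zero])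

include H in
theorem ev'_mulA (e : ℕ) (hT : ∀ n, e < n → n ∈ T) (a : Γ → k)
    (ha : IsMorphism (fun g : Γ => ι g) a)
    (hae : ∀ (g : Γ) (b : B), a (g * b) = χ b⁻¹ * a g) (F : II ι B χ hχ T) (hF : co F 0 1 = 0)
    (g : Γ) : ev' g (mulA e hT a ha hae F) = C (a g ^ e) * (X ^ e * ev' g F) := by
  refine Polynomial.ext fun n => ?_
  rw [coeff_ev', mulA, co_mk, coeff_C_mul, coeff_X_pow_mul']
  rcases lt_trichotomy n e with h | h | h
  · rw [if_neg (not_lt.2 h.le), if_neg (not_le.2 h), mul_zero]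
  · rw [if_neg (by omega), if_pos (le_of_eq h.symm), h, Nat.sub_self, coeff_ev', co_zero H F, hF,
      mul_zero]
  · rw [if_pos h, if_pos h.le, coeff_ev']

/-- powers of semi-invariants, as elements of degree `e + 1` -/
noncomputable def pw (e : ℕ) (hT : ∀ n, e < n → n ∈ T) (a : Γ → k)
    (ha : IsMorphism (fun g : Γ => ι g) a)
    (hae : ∀ (g : Γ) (b : B), a (g * b) = χ b⁻¹ * a g) : II ι B χ hχ T :=
  mk (fun n g => if n = e + 1 then a g ^ (e + 1) else 0) (e + 1)
    (fun n hn g => if_neg fun h => hn (hT n (by omega)))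
    (fun n hn g => if_neg (by omega))
    (fun n => by
      by_cases h : n = e + 1
      · simp only [if_pos h]
        exact mor_pow ha (e + 1)
      · simp only [if_neg h]
        exact mor_const 0)
    (fun n g b => by
      by_cases h : n = e + 1
      · simp only [if_pos h]
        rw [hae, h]
        ring
      · simp only [if_neg h, mul_zero])

theorem co_pw (e : ℕ) (hT : ∀ n, e < n → n ∈ T) (a : Γ → k)
    (ha : IsMorphism (fun g : Γ => ι g) a)
    (hae : ∀ (g : Γ) (b : B), a (g * b) = χ b⁻¹ * a g) (n : ℕ) (g : Γ) :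
    co (pw (hχ := hχ) e hT a ha hae) n g = if n = e + 1 then a g ^ (e + 1) else 0 :=
  co_mk _ _ _ _ _ _ _ _

/-- the irrelevant ideal -/
noncomputable def mm (ι : Γ →* Matrix (Fin N) (Fin N) k) (B : Subgroup Γ) (χ : B →* k)
    (hχ : IsMorphism (fun b : B => ι b) (fun b => χ b)) (T : AddSubmonoid ℕ) :
    Ideal (II ι B χ hχ T) :=
  RingHom.ker (ε (ι := ι) (B := B) (χ := χ) (hχ := hχ) (T := T))

instance : (mm ι B χ hχ T).IsPrime := RingHom.ker_isPrime _

theorem mem_mm {F : II ι B χ hχ T} : F ∈ mm ι B χ hχ T ↔ co F 0 1 = 0 := by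
  rw [mm, RingHom.mem_ker, ← ε_apply]

/-- The main theorem: the localization of the induced algebra at the irrelevant ideal has
dimension at least two, but all regular sequences in its maximal ideal have length at most one. -/
theorem main (H : Hyp ι B χ) (e : ℕ) (he : e ∉ T) (hT : ∀ n, e < n → n ∈ T) : IsDomain (II ι B χ hχ T) ∧
    2 ≤ ringKrullDim (Localization.AtPrime (mm ι B χ hχ T)) ∧
    ∀ rs : List (Localization.AtPrime (mm ι B χ hχ T)),
      (∀ r ∈ rs, r ∈ maximalIdeal (Localization.AtPrime (mm ι B χ hχ T))) →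
      RingTheory.Sequence.IsRegular (Localization.AtPrime (mm ι B χ hχ T)) rs → rs.length ≤ 1 := by
  have hdom : IsDomain (II ι B χ hχ T) := II_domain H
  obtain ⟨a, c, g₀, g₁, ha, hc, hae, hce, ha0, hc0, hc1⟩ := H.pair
  refine ⟨hdom, ?_, ?_⟩
  · let P : Ideal (II ι B χ hχ T) := RingHom.ker (ev (ι := ι) (B := B) (χ := χ) (hχ := hχ) (T := T) g₀)
    have hP : P.IsPrime := RingHom.ker_isPrime _
    have hmem : ∀ F, F ∈ P ↔ ∀ n, co F n g₀ = 0 := by
      intro F
      constructor
      · intro h n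
        have h1 : ev g₀ F = 0 := h
        rw [co, ← ev_apply, h1, map_zero]
      · intro h
        change ev g₀ F = 0
        exact nsr_ext fun n => by rw [map_zero]; exact h n
    refine two_le_dim (mm ι B χ hχ T) P ?_ ?_
    · intro h
      have h1 : pw e hT c hc hce ∈ P := (hmem _).2 fun n => by
        rw [co_pw, hc0, zero_pow (Nat.succ_ne_zero e), ite_self]
      rw [h, Ideal.mem_bot] at h1
      have h2 := co_pw (hχ := hχ) e hT c hc hce (e + 1) g₁
      rw [h1, if_pos rfl] at h2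
      have h3 : co (0 : II ι B χ hχ T) (e + 1) g₁ = 0 := map_zero (cf (e + 1))
      rw [h3] at h2
      exact hc1 ((pow_eq_zero_iff (Nat.succ_ne_zero e)).1 h2.symm)
    · refine lt_of_le_of_ne ?_ ?_
      · intro F hF
        rw [mem_mm, ← co_zero H F g₀]
        exact (hmem F).1 hF 0
      · intro h
        have h1 : pw e hT a ha hae ∈ mm ι B χ hχ T := by
          rw [mem_mm, co_pw, if_neg (by omega)]
        rw [← h] at h1
        have h2 := (hmem _).1 h1 (e + 1)
        rw [co_pw, if_pos rfl] at h2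
        exact ha0 ((pow_eq_zero_iff (Nat.succ_ne_zero e)).1 h2)
  · refine length_le_one (mm ι B χ hχ T) (mulA e hT a ha hae) ?_ ?_
    · intro F hF G hG
      rw [mem_mm] at hF hG
      refine II_ext' fun g => ?_
      rw [map_mul, map_mul, ev'_mulA H e hT a ha hae F hF, ev'_mulA H e hT a ha hae G hG]
      ring
    · intro F hF hF0 s d h
      rw [mem_mm] at hF ⊢
      obtain ⟨g, hg, hag⟩ := common H hF0 ha ha0
      have h1 := congrArg (ev' g) h
      rw [map_mul, map_mul, ev'_mulA H e hT a ha hae F hF] at h1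
      have h2 : ev' g F * (C (a g ^ e) * (X ^ e * ev' g s) - ev' g d) = 0 := by
        linear_combination h1
      have h3 := sub_eq_zero.1 ((mul_eq_zero.1 h2).resolve_left hg)
      have h4 := congrArg (fun p : k[X] => p.coeff e) h3
      beta_reduce at h4
      rw [coeff_C_mul, coeff_X_pow_mul', if_pos le_rfl, Nat.sub_self, coeff_ev', coeff_ev',
        co_gap he] at h4
      rw [← co_zero H s g]
      exact (mul_eq_zero.1 h4).resolve_left (pow_ne_zero _ hag)

theorem not_cm (H : Hyp ι B χ) (e : ℕ) (he : e ∉ T) (hT : ∀ n, e < n → n ∈ T) :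
    ¬ Pool.Agent.H957R3.CM.IsCohenMacaulayRing (II ι B χ hχ T) := by
  obtain ⟨h0, h1, h2⟩ := main (hχ := hχ) H e he hT
  exact not_cm_of (mm ι B χ hχ T) h1 h2

end

end Pool.Agent.Y85.NSI
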