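import Pool.Agent.Y85.NSI.Gen
import Pool.Agent.H957R3.Ind

/-!
# The hypotheses of the general theorem for `SL_n`
-/

set_option autoImplicit false

namespace Pool.Agent.Y85.NSI

universe u v

open Polynomial

section comp

variable {k : Type u} [Field k]

/-- composition of morphisms -/
theorem mor_comp {M N : ℕ} {S : Type v} {ι : S → Matrix (Fin N) (Fin N) k}
    {γ : S → Matrix (Fin M) (Fin M) k} (hγ : ∀ a b, IsMorphism (R := k) ι (fun s => γ s a b))
    (Φ : MvPolynomial (Fin M × Fin M) k) :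
    IsMorphism (R := k) ι
      (fun s => MvPolynomial.eval (fun ij => algebraMap k k (γ s ij.1 ij.2)) Φ) := by
  induction Φ using MvPolynomial.induction_on with
  | C r => simpa using mor_const (ι := ι) r
  | add p q hp hq =>
    simp only [map_add]
    exact mor_add hp hq
  | mul_X p i hp =>
    simp only [map_mul, MvPolynomial.eval_X]
    exact mor_mul hp (hγ i.1 i.2)

end comp

variable {n : ℕ} {k : Type u} [Field k]

/-! ### The embeddings of `SL₂` -/

/-- two columns of the unit matrix -/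
def VV (k : Type u) [Field k] (i j : Fin n) : Matrix (Fin n) (Fin 2) k :=
  Matrix.of fun a p => if a = (if p = 0 then i else j) then 1 else 0

/-- two rows of the unit matrix -/
def WW (k : Type u) [Field k] (i j : Fin n) : Matrix (Fin 2) (Fin n) k :=
  Matrix.of fun p a => if a = (if p = 0 then i else j) then 1 else 0

theorem WW_mul_VV (i j : Fin n) (hij : i ≠ j) : WW k i j * VV k i j = 1 := by
  ext p q
  rw [Matrix.mul_apply]
  simp only [WW, VV, Matrix.of_apply, mul_ite, mul_one, mul_zero]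
  fin_cases p <;> fin_cases q <;> simp [hij, Ne.symm hij]

/-- the matrix of the embedding -/
def ee (i j : Fin n) (h : Matrix (Fin 2) (Fin 2) k) : Matrix (Fin n) (Fin n) k :=
  1 + VV k i j * (h - 1) * WW k i j

theorem ee_mul (i j : Fin n) (hij : i ≠ j) (h h' : Matrix (Fin 2) (Fin 2) k) :
    ee i j (h * h') = ee i j h * ee i j h' := by
  have e := WW_mul_VV (k := k) i j hij
  have e1 : VV k i j * (h - 1) * WW k i j * (VV k i j * (h' - 1) * WW k i j) =
      VV k i j * ((h - 1) * (h' - 1)) * WW k i j := by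
    calc VV k i j * (h - 1) * WW k i j * (VV k i j * (h' - 1) * WW k i j) =
        VV k i j * (h - 1) * (WW k i j * VV k i j) * (h' - 1) * WW k i j := by
          simp only [Matrix.mul_assoc]
      _ = VV k i j * ((h - 1) * (h' - 1)) * WW k i j := by
          rw [e, Matrix.mul_one]
          simp only [Matrix.mul_assoc]
  have e2 : h * h' - 1 = (h - 1) + (h' - 1) + (h - 1) * (h' - 1) := by
    simp only [sub_mul, mul_sub, mul_one, one_mul]
    abel
  rw [ee, ee, ee, e2, Matrix.mul_add, Matrix.mul_add, Matrix.add_mul, Matrix.add_mul,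
    mul_add, add_mul, add_mul, e1]
  simp only [mul_one, one_mul]
  abel

theorem ee_det (i j : Fin n) (hij : i ≠ j) (h : Matrix (Fin 2) (Fin 2) k) :
    (ee i j h).det = h.det := by
  rw [ee, Matrix.mul_assoc, Matrix.det_one_add_mul_comm, Matrix.mul_assoc, WW_mul_VV i j hij,
    Matrix.mul_one]
  congr 1
  abel

/-- the embedding of `SL₂` -/
def phi (i j : Fin n) (hij : i ≠ j) (h : SL 2 k) : SL n k :=
  ⟨ee i j h.1, by rw [ee_det i j hij, h.2]⟩

theorem phi_mul (i j : Fin n) (hij : i ≠ j) (h h' : SL 2 k) :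
    phi i j hij (h * h') = phi i j hij h * phi i j hij h' :=
  Subtype.ext (ee_mul i j hij h.1 h'.1)

theorem ee_apply (i j : Fin n) (h : Matrix (Fin 2) (Fin 2) k) (a b : Fin n) :
    ee i j h a b = (if a = b then 1 else 0) +
      ((if a = i then (if b = i then h 0 0 - 1 else 0) + (if b = j then h 0 1 else 0) else 0) +
       (if a = j then (if b = i then h 1 0 else 0) + (if b = j then h 1 1 - 1 else 0) else 0)) := by
  rw [ee, Matrix.add_apply, Matrix.one_apply, Matrix.mul_apply, Fin.sum_univ_two,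
    Matrix.mul_apply, Matrix.mul_apply, Fin.sum_univ_two, Fin.sum_univ_two]
  have v0 : VV k i j a 0 = if a = i then 1 else 0 := by simp [VV]
  have v1 : VV k i j a 1 = if a = j then 1 else 0 := by simp [VV]
  have w0 : WW k i j 0 b = if b = i then 1 else 0 := by simp [WW]
  have w1 : WW k i j 1 b = if b = j then 1 else 0 := by simp [WW]
  have s00 : (h - 1) 0 0 = h 0 0 - 1 := by simp
  have s01 : (h - 1) 0 1 = h 0 1 := by simp
  have s10 : (h - 1) 1 0 = h 1 0 := by simp
  have s11 : (h - 1) 1 1 = h 1 1 - 1 := by simp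
  rw [v0, v1, w0, w1, s00, s01, s10, s11]
  congr 1
  split_ifs <;> ring

theorem phi_mem (i j : Fin n) (hij : i < j) (h : SL 2 k) (h0 : h.1 1 0 = 0) :
    phi i j (ne_of_lt hij) h ∈ borel n k := by
  intro a b hab
  change ee i j h.1 a b = 0
  rw [ee_apply, if_neg (ne_of_gt hab), zero_add, h0]
  by_cases h1 : a = i
  · have h2 : b ≠ i := fun e => by rw [h1, e] at hab; exact lt_irrefl _ hab
    have h3 : b ≠ j := fun e => by rw [h1, e] at hab; exact lt_asymm hab hij
    have h4 : a ≠ j := fun e => by rw [← h1, ← e] at hij; exact lt_irrefl _ hij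
    rw [if_pos h1, if_neg h2, if_neg h3, if_neg h4]
    ring
  · rw [if_neg h1]
    by_cases h2 : a = j
    · have h3 : b ≠ j := fun e => by rw [h2, e] at hab; exact lt_irrefl _ hab
      rw [if_pos h2, if_neg h3, ite_self]
      ring
    · rw [if_neg h2]
      ring

theorem phi_lo (i j : Fin n) (hij : i ≠ j) (z : k) :
    (phi i j hij (Pool.Agent.H957R3.Ind.lo z)).1 = Matrix.transvection j i z := by
  ext a b
  change ee i j (Pool.Agent.H957R3.Ind.lo z).1 a b = _
  rw [ee_apply, Matrix.transvection, Matrix.add_apply, Matrix.one_apply, Matrix.single_apply]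
  have e00 : (Pool.Agent.H957R3.Ind.lo z).1 0 0 = 1 := rfl
  have e01 : (Pool.Agent.H957R3.Ind.lo z).1 0 1 = 0 := rfl
  have e10 : (Pool.Agent.H957R3.Ind.lo z).1 1 0 = z := rfl
  have e11 : (Pool.Agent.H957R3.Ind.lo z).1 1 1 = 1 := rfl
  rw [e00, e01, e10, e11, sub_self]
  have hji : j ≠ i := Ne.symm hij
  congr 1
  by_cases h2 : a = j
  · have h1 : a ≠ i := fun e => hij (e.symm.trans h2)
    rw [if_neg h1, if_pos h2, zero_add, ite_self, add_zero]
    by_cases h3 : b = i
    · rw [if_pos h3, if_pos ⟨h2.symm, h3.symm⟩]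
    · rw [if_neg h3, if_neg (fun h => h3 h.2.symm)]
  · rw [if_neg h2, add_zero, ite_self, ite_self, add_zero, ite_self, if_neg (fun h => h2 h.1.symm)]

/-- right invariance under the Borel subgroup of an embedded `SL₂` implies right invariance
under this `SL₂` -/
theorem phi_inv [Infinite k] (f : SL n k → k) (hf : IsMorphism (fun g : SL n k => inc n k g) f)
    (i j : Fin n) (hij : i ≠ j)
    (hB : ∀ (g : SL n k) (b : SL 2 k), b.1 1 0 = 0 → f (g * phi i j hij b) = f g)
    (g : SL n k) (h : SL 2 k) : f (g * phi i j hij h) = f g := by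
  obtain ⟨Φ, hΦ⟩ := hf
  have hF : IsMorphism (R := k) (fun h : SL 2 k => (h.1 : Matrix (Fin 2) (Fin 2) k))
      (fun h : SL 2 k => f (g * phi i j hij h)) := by
    have h1 := mor_comp (ι := fun h : SL 2 k => (h.1 : Matrix (Fin 2) (Fin 2) k))
      (γ := fun h : SL 2 k => g.1 * ee i j h.1) (fun a b => ?_) Φ
    · obtain ⟨Ψ, hΨ⟩ := h1
      exact ⟨Ψ, fun s => by rw [← hΨ]; exact hΦ (g * phi i j hij s)⟩
    · simp only [Matrix.mul_apply]
      refine mor_sum _ fun c => mor_mul (mor_const _) ?_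
      simp only [ee, Matrix.add_apply, Matrix.mul_apply, Matrix.sub_apply, sub_eq_add_neg]
      refine mor_add (mor_const _) (mor_sum _ fun q => mor_mul (mor_sum _ fun p => mor_mul
        (mor_const _) (mor_add (mor_entry p q) (mor_const _))) (mor_const _))
  obtain ⟨Ψ, hΨ⟩ := hF
  obtain ⟨P, hP⟩ := Pool.Agent.H957R3.Ind.curve (R := k) LinearMap.id
    (fun z => (Pool.Agent.H957R3.Ind.lo z).1)
    (fun ij => !![1, 0; X, 1] ij.1 ij.2) (by
      rintro z ⟨a, b⟩
      fin_cases a <;> fin_cases b <;> simp [Pool.Agent.H957R3.Ind.lo, Pool.Agent.H957R3.Ind.mk4]) Ψ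
  obtain ⟨Q, hQ⟩ := Pool.Agent.H957R3.Ind.curve (R := k) LinearMap.id
    (fun z => (Pool.Agent.H957R3.Ind.hi z).1)
    (fun ij => !![X, -1; 1, 0] ij.1 ij.2) (by
      rintro z ⟨a, b⟩
      fin_cases a <;> fin_cases b <;> simp [Pool.Agent.H957R3.Ind.hi, Pool.Agent.H957R3.Ind.mk4]) Ψ
  obtain ⟨-, h1⟩ := Pool.Agent.H957R3.Ind.key 0 (fun h => f (g * phi i j hij h)) P Q
    (fun z => by rw [← hP]; exact hΨ _) (fun z => by rw [← hQ]; exact hΨ _)
    (fun h b => by
      rw [pow_zero, one_mul, phi_mul, ← mul_assoc]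
      exact hB _ _ b.2)
  have h2 := h1 h
  have h3 := h1 1
  simp only [zero_add, Finset.range_one, Finset.sum_singleton, pow_zero, Nat.sub_self,
    mul_one] at h2 h3
  rw [h2, ← h3]
  congr 1
  have h4 : (phi i j hij 1 : SL n k) = 1 := by
    refine Subtype.ext ?_
    change ee i j (1 : Matrix (Fin 2) (Fin 2) k) = (1 : Matrix (Fin n) (Fin n) k)
    rw [ee, sub_self, Matrix.mul_zero, Matrix.zero_mul, add_zero]
  rw [h4, mul_one]

/-! ### Invariant functions are constant -/

/-- the `B`-invariant regular functions on `SL_n` are constant -/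
theorem sl_const [Infinite k] (f : SL n k → k) (hf : IsMorphism (fun g : SL n k => inc n k g) f)
    (hB : ∀ (g : SL n k) (b : borel n k), f (g * b) = f g) (g : SL n k) : f g = f 1 := by
  have h1 : ∃ h : g.1.det = 1, ∀ x : SL n k, f (x * ⟨g.1, h⟩) = f x := by
    refine Matrix.diagonal_transvection_induction
      (fun M => ∃ h : M.det = 1, ∀ x : SL n k, f (x * ⟨M, h⟩) = f x) g.1 ?_ ?_ ?_
    · intro D hD
      refine ⟨hD.trans g.2, fun x => ?_⟩
      exact hB x ⟨⟨Matrix.diagonal D, hD.trans g.2⟩, fun i j h =>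
        Matrix.diagonal_apply_ne _ (ne_of_gt h)⟩
    · rintro ⟨i, j, hij, c⟩
      refine ⟨Matrix.det_transvection_of_ne _ _ hij c, fun x => ?_⟩
      rcases lt_or_gt_of_ne hij with h | h
      · refine hB x ⟨⟨Matrix.transvection i j c, Matrix.det_transvection_of_ne _ _ hij c⟩, ?_⟩
        intro a b hab
        change Matrix.transvection i j c a b = 0
        rw [Matrix.transvection, Matrix.add_apply, Matrix.one_apply_ne (ne_of_gt hab), zero_add,
          Matrix.single_apply, if_neg]
        rintro ⟨rfl, rfl⟩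
        exact lt_asymm h hab
      · have h2 := phi_inv f hf j i (ne_of_lt h)
          (fun g b hb => hB g ⟨phi j i (ne_of_lt h) b, phi_mem j i h b hb⟩) x
          (Pool.Agent.H957R3.Ind.lo c)
        have h3 : phi j i (ne_of_lt h) (Pool.Agent.H957R3.Ind.lo c) =
            ⟨Matrix.transvection i j c, Matrix.det_transvection_of_ne _ _ hij c⟩ :=
          Subtype.ext (phi_lo j i (ne_of_lt h) c)
        rw [h3] at h2
        exact h2
    · rintro A C ⟨hA, hA'⟩ ⟨hC, hC'⟩
      refine ⟨by rw [Matrix.det_mul, hA, hC, one_mul], fun x => ?_⟩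
      let a' : SL n k := ⟨A, hA⟩
      let c' : SL n k := ⟨C, hC⟩
      have h4 : (⟨A * C, by rw [Matrix.det_mul, hA, hC, one_mul]⟩ : SL n k) = a' * c' := rfl
      rw [h4, ← mul_assoc]
      exact (hC' (x * a')).trans (hA' x)
  obtain ⟨h, h2⟩ := h1
  have h3 := h2 1
  have h4 : (1 : SL n k) * ⟨g.1, h⟩ = g := one_mul g
  rw [h4] at h3
  exact h3

/-! ### The regular functions form a domain -/

/-- the determinant as a polynomial -/
noncomputable def dP (n : ℕ) (k : Type u) [Field k] : MvPolynomial (Fin n × Fin n) k :=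
  Matrix.det (Matrix.of fun i j => (MvPolynomial.X (i, j) : MvPolynomial (Fin n × Fin n) k))

theorem eval_dP (A : Matrix (Fin n) (Fin n) k) :
    MvPolynomial.eval (fun ij => A ij.1 ij.2) (dP n k) = A.det := by
  rw [dP, RingHom.map_det]
  congr 1
  ext i j
  simp

/-- extension of a function on `SL_n` to `GL_n`, up to a power of the determinant -/
theorem ext_gl (i₀ : Fin n) (Φ : MvPolynomial (Fin n × Fin n) k) :
    ∃ (m : ℕ) (F : MvPolynomial (Fin n × Fin n) k), ∀ A : Matrix (Fin n) (Fin n) k, A.det ≠ 0 →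
      MvPolynomial.eval (fun ij => A ij.1 ij.2) F = A.det ^ m *
        MvPolynomial.eval (fun ij => A ij.1 ij.2 * (if ij.2 = i₀ then A.det⁻¹ else 1)) Φ := by
  induction Φ using MvPolynomial.induction_on with
  | C r => exact ⟨0, MvPolynomial.C r, fun A _ => by simp⟩
  | add p q hp hq =>
    obtain ⟨m, F, hF⟩ := hp
    obtain ⟨l, G, hG⟩ := hq
    refine ⟨m + l, F * dP n k ^ l + G * dP n k ^ m, fun A hA => ?_⟩
    rw [map_add, map_mul, map_mul, map_pow, map_pow, eval_dP, hF A hA, hG A hA, map_add]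
    ring
  | mul_X p i hp =>
    obtain ⟨m, F, hF⟩ := hp
    by_cases h : i.2 = i₀
    · refine ⟨m + 1, F * MvPolynomial.X i, fun A hA => ?_⟩
      rw [map_mul, map_mul, MvPolynomial.eval_X, MvPolynomial.eval_X, hF A hA, if_pos h, pow_succ]
      field_simp
    · refine ⟨m, F * MvPolynomial.X i, fun A hA => ?_⟩
      rw [map_mul, map_mul, MvPolynomial.eval_X, MvPolynomial.eval_X, hF A hA, if_neg h]
      ring

theorem sl_irr [Infinite k] (i₀ : Fin n) (f h : SL n k → k)
    (hf : IsMorphism (fun g : SL n k => inc n k g) f)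
    (hh : IsMorphism (fun g : SL n k => inc n k g) h) (hfh : ∀ g, f g * h g = 0) :
    (∀ g, f g = 0) ∨ ∀ g, h g = 0 := by
  obtain ⟨Φ, hΦ⟩ := hf
  obtain ⟨Ψ, hΨ⟩ := hh
  obtain ⟨m, F, hF⟩ := ext_gl i₀ Φ
  obtain ⟨l, G, hG⟩ := ext_gl i₀ Ψ
  have key : ∀ (Φ F : MvPolynomial (Fin n × Fin n) k) (m : ℕ), (∀ A : Matrix (Fin n) (Fin n) k,
      A.det ≠ 0 → MvPolynomial.eval (fun ij => A ij.1 ij.2) F = A.det ^ m *
        MvPolynomial.eval (fun ij => A ij.1 ij.2 * (if ij.2 = i₀ then A.det⁻¹ else 1)) Φ) →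
      F = 0 → ∀ g : SL n k, MvPolynomial.eval (fun ij => g.1 ij.1 ij.2) Φ = 0 := by
    intro Φ F m hF hF0 g
    have h1 := hF g.1 (by rw [g.2]; exact one_ne_zero)
    rw [hF0, map_zero, g.2, one_pow, one_mul, inv_one] at h1
    simp only [ite_self, mul_one] at h1
    exact h1.symm
  have hprod : F * G * dP n k = 0 := by
    refine MvPolynomial.funext fun x => ?_
    let A : Matrix (Fin n) (Fin n) k := Matrix.of fun i j => x (i, j)
    have hx : x = fun ij => A ij.1 ij.2 := by
      funext ij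
      rfl
    rw [hx, map_mul, map_mul, eval_dP, map_zero]
    by_cases hA : A.det = 0
    · rw [hA, mul_zero]
    · rw [hF A hA, hG A hA]
      let A' : Matrix (Fin n) (Fin n) k :=
        A * Matrix.diagonal fun j => if j = i₀ then A.det⁻¹ else 1
      have hd : A'.det = 1 := by
        rw [Matrix.det_mul, Matrix.det_diagonal, Finset.prod_ite_eq' Finset.univ i₀,
          if_pos (Finset.mem_univ _), mul_inv_cancel₀ hA]
      have h1 : MvPolynomial.eval (fun ij => algebraMap k k (inc n k ⟨A', hd⟩ ij.1 ij.2)) Φ *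
          MvPolynomial.eval (fun ij => algebraMap k k (inc n k ⟨A', hd⟩ ij.1 ij.2)) Ψ = 0 :=
        (congrArg₂ (· * ·) (hΦ ⟨A', hd⟩) (hΨ ⟨A', hd⟩)).symm.trans (hfh ⟨A', hd⟩)
      have h2 : (fun ij : Fin n × Fin n => algebraMap k k (inc n k ⟨A', hd⟩ ij.1 ij.2)) =
          fun ij => A ij.1 ij.2 * (if ij.2 = i₀ then A.det⁻¹ else 1) := by
        funext ij
        exact Matrix.mul_diagonal (fun j => if j = i₀ then A.det⁻¹ else 1) A ij.1 ij.2
      rw [h2] at h1
      calc _ = A.det ^ m * A.det ^ l * A.det * (MvPolynomial.eval (fun ij => A ij.1 ij.2 *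
            (if ij.2 = i₀ then A.det⁻¹ else 1)) Φ * MvPolynomial.eval (fun ij => A ij.1 ij.2 *
            (if ij.2 = i₀ then A.det⁻¹ else 1)) Ψ) := by ring
        _ = 0 := by rw [h1, mul_zero]
  have hdP : dP n k ≠ 0 := by
    intro h0
    have h1 := eval_dP (1 : Matrix (Fin n) (Fin n) k)
    rw [h0, map_zero, Matrix.det_one] at h1
    exact zero_ne_one h1
  rcases mul_eq_zero.1 hprod with h1 | h1
  · rcases mul_eq_zero.1 h1 with h2 | h2
    · exact Or.inl fun g => (hΦ g).trans (key Φ F m hF h2 g)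
    · exact Or.inr fun g => (hΨ g).trans (key Ψ G l hG h2 g)
  · exact absurd h1 hdP

/-! ### The character -/

theorem chi_reg (m : ℕ) : IsMorphism (fun b : borel (m + 2) k => inc (m + 2) k b)
    (fun b => chi m k b) := by
  refine ⟨Matrix.adjugate (Matrix.of fun i j =>
    (MvPolynomial.X (i, j) : MvPolynomial (Fin (m + 2) × Fin (m + 2)) k)) 0 0, fun b => ?_⟩
  have h1 : chi m k b = Matrix.adjugate b.1.1 0 0 := by
    change (b.1⁻¹).1 0 0 = _
    rw [Matrix.SpecialLinearGroup.coe_inv]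
  refine h1.trans ?_
  have h2 := RingHom.map_adjugate (MvPolynomial.eval
    (fun ij : Fin (m + 2) × Fin (m + 2) => algebraMap k k (inc (m + 2) k b ij.1 ij.2)))
    (Matrix.of fun i j => (MvPolynomial.X (i, j) : MvPolynomial (Fin (m + 2) × Fin (m + 2)) k))
  have h3 := congrFun (congrFun h2 0) 0
  rw [RingHom.mapMatrix_apply, Matrix.map_apply] at h3
  rw [h3]
  congr 2
  ext i j
  simp [inc]

theorem semi (m : ℕ) (i : Fin (m + 2)) (g : SL (m + 2) k) (b : borel (m + 2) k) :
    (g * b.1).1 i 0 = chi m k b⁻¹ * g.1 i 0 := by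
  change (g.1 * b.1.1) i 0 = (b⁻¹⁻¹ : borel (m + 2) k).1.1 0 0 * g.1 i 0
  rw [inv_inv, Matrix.mul_apply, Finset.sum_eq_single 0, mul_comm]
  · intro j _ hj
    rw [b.2 j 0 (Fin.pos_of_ne_zero hj), mul_zero]
  · intro h
    exact absurd (Finset.mem_univ _) h

/-- the hypotheses of the general theorem hold for `SL_{m+2}` -/
theorem hyp_sl [Infinite k] (m : ℕ) : Hyp (inc (m + 2) k) (borel (m + 2) k) (chi m k) where
  irr := sl_irr 0
  const := sl_const
  reg := chi_reg m
  two := by
    refine ⟨fun g => g.1 0 0, fun g => g.1 1 0, mor_entry 0 0, mor_entry 1 0, semi m 0, semi m 1,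
      ?_⟩
    rw [LinearIndependent.pair_iff]
    intro s t hst
    have h1 : s * (1 : Matrix (Fin (m + 2)) (Fin (m + 2)) k) 0 0 +
        t * (1 : Matrix (Fin (m + 2)) (Fin (m + 2)) k) 1 0 = 0 := congrFun hst 1
    have h01 : (1 : Fin (m + 2)) ≠ 0 := one_ne_zero
    have h2 : s * (Matrix.transvection (1 : Fin (m + 2)) 0 (1 : k)) 0 0 +
        t * (Matrix.transvection (1 : Fin (m + 2)) 0 (1 : k)) 1 0 = 0 :=
      congrFun hst ⟨Matrix.transvection 1 0 1, Matrix.det_transvection_of_ne _ _ h01 1⟩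
    rw [Matrix.one_apply_eq, Matrix.one_apply_ne h01, mul_one, mul_zero, add_zero] at h1
    rw [h1, zero_mul, zero_add, Matrix.transvection, Matrix.add_apply, Matrix.one_apply_ne h01,
      Matrix.single_apply, if_pos ⟨rfl, rfl⟩, zero_add, mul_one] at h2
    exact ⟨h1, h2⟩

end Pool.Agent.Y85.NSI
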